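import Mathlib

/-! The shift graph on strictly increasing sequences has no Borel 3-colouring
(a special case of the Galvin-Prikry theorem, proved with ultrafilter trees). -/

set_option autoImplicit false

namespace Pool.Agent.P.MP_b28ae3_lc

open Set

/-- the shift on sequences -/
def sh (y : ℕ → ℕ) : ℕ → ℕ := fun k => y (k + 1)

/-- truncation of a sequence below `k` -/
def trunc (y : ℕ → ℕ) (k : ℕ) : ℕ → ℕ := fun i => if i < k then y i else 0

noncomputable abbrev UU : Ultrafilter ℕ := Filter.hyperfilter ℕ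

/-- `B` contains all branches of an ultrafilter tree with stem `s` restricted below `m`. -/
def Dec (m : ℕ) (s : ℕ → ℕ) (B : Set (ℕ → ℕ)) : Prop :=
  ∃ σ : ℕ → (ℕ → ℕ) → Set ℕ, (∀ k t, σ k t ∈ UU) ∧
    ∀ y : ℕ → ℕ, (∀ i < m, y i = s i) → (∀ k, m ≤ k → y k ∈ σ k (trunc y k)) → y ∈ B

lemma trunc_trunc (y : ℕ → ℕ) {j k : ℕ} (h : j ≤ k) : trunc (trunc y k) j = trunc y j := by
  funext i
  unfold trunc
  by_cases hi : i < j
  · have : i < k := lt_of_lt_of_le hi h
    simp [hi, this]
  · simp [hi]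

lemma Dec.mono {m : ℕ} {s : ℕ → ℕ} {B C : Set (ℕ → ℕ)} (h : Dec m s B) (hBC : B ⊆ C) :
    Dec m s C := by
  obtain ⟨σ, h1, h2⟩ := h
  exact ⟨σ, h1, fun y a b => hBC (h2 y a b)⟩

lemma Dec.inter {m : ℕ} {s : ℕ → ℕ} {B C : Set (ℕ → ℕ)} (h : Dec m s B) (h' : Dec m s C) :
    Dec m s (B ∩ C) := by
  obtain ⟨σ, h1, h2⟩ := h
  obtain ⟨τ, g1, g2⟩ := h'
  refine ⟨fun k t => σ k t ∩ τ k t, fun k t => Filter.inter_mem (h1 k t) (g1 k t), ?_⟩
  intro y a b
  exact ⟨h2 y a (fun k hk => (b k hk).1), g2 y a (fun k hk => (b k hk).2)⟩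

lemma Dec.congr {m : ℕ} {s s' : ℕ → ℕ} {B : Set (ℕ → ℕ)} (h : Dec m s B)
    (hs : ∀ i < m, s i = s' i) : Dec m s' B := by
  obtain ⟨σ, h1, h2⟩ := h
  exact ⟨σ, h1, fun y a b => h2 y (fun i hi => (a i hi).trans (hs i hi).symm) b⟩

lemma Dec.step {m : ℕ} {s : ℕ → ℕ} {B : Set (ℕ → ℕ)}
    (h : {n | Dec (m + 1) (Function.update s m n) B} ∈ UU) : Dec m s B := by
  classical
  have key : ∀ n : ℕ, ∃ σ : ℕ → (ℕ → ℕ) → Set ℕ, (∀ k t, σ k t ∈ UU) ∧
      (Dec (m + 1) (Function.update s m n) B →
        ∀ y : ℕ → ℕ, (∀ i < m + 1, y i = Function.update s m n i) →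
          (∀ k, m + 1 ≤ k → y k ∈ σ k (trunc y k)) → y ∈ B) := by
    intro n
    by_cases hn : Dec (m + 1) (Function.update s m n) B
    · obtain ⟨σ, h1, h2⟩ := hn
      exact ⟨σ, h1, fun _ => h2⟩
    · exact ⟨fun _ _ => univ, fun _ _ => Filter.univ_mem, fun h => absurd h hn⟩
  choose σ h1 h2 using key
  refine ⟨fun k t => if k = m then {n | Dec (m + 1) (Function.update s m n) B} else σ (t m) k t,
    ?_, ?_⟩
  · intro k t
    by_cases hk : k = m
    · simp only [hk, if_true]; exact h
    · simp only [hk, if_false]; exact h1 _ _ _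
  · intro y a b
    have hm := b m le_rfl
    simp only [if_true, mem_ofPred_eq] at hm
    refine h2 (y m) hm y ?_ ?_
    · intro i hi
      by_cases him : i = m
      · subst him; simp
      · rw [Function.update_of_ne him]; exact a i (by omega)
    · intro k hk
      have := b k (by omega)
      have hkm : k ≠ m := by omega
      simp only [hkm, if_false] at this
      have e : trunc y k m = y m := by
        unfold trunc; rw [if_pos (by omega)]
      rwa [e] at this

lemma dec_iUnion (B : ℕ → Set (ℕ → ℕ))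
    (hB : ∀ i m s, Dec m s (B i) ∨ Dec m s (B i)ᶜ) (m : ℕ) (s : ℕ → ℕ) :
    Dec m s (⋃ i, B i) ∨ Dec m s (⋃ i, B i)ᶜ := by
  classical
  by_cases hs : Dec m s (⋃ i, B i)
  · exact Or.inl hs
  right
  have key : ∀ (j : ℕ) (t : ℕ → ℕ) (i : ℕ), ∃ σ : ℕ → (ℕ → ℕ) → Set ℕ, (∀ k t, σ k t ∈ UU) ∧
      (¬ Dec j t (⋃ i, B i) →
        ∀ y : ℕ → ℕ, (∀ l < j, y l = t l) →
          (∀ k, j ≤ k → y k ∈ σ k (trunc y k)) → y ∈ (B i)ᶜ) := by
    intro j t i
    rcases hB i j t with h | h
    · exact ⟨fun _ _ => univ, fun _ _ => Filter.univ_mem,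
        fun h' => absurd (h.mono (subset_iUnion B i)) h'⟩
    · obtain ⟨σ, h1, h2⟩ := h
      exact ⟨σ, h1, fun _ => h2⟩
  choose τ h1 h2 using key
  refine ⟨fun k t => {n | ¬ Dec k t (⋃ i, B i) → ¬ Dec (k + 1) (Function.update t k n) (⋃ i, B i)}
      ∩ ⋂ j ∈ Finset.range (k + 1), τ j (trunc t j) (j - m) k t, ?_, ?_⟩
  · intro k t
    refine Filter.inter_mem ?_ ?_
    · by_cases hk : Dec k t (⋃ i, B i)
      · have : {n | ¬ Dec k t (⋃ i, B i) → ¬ Dec (k + 1) (Function.update t k n) (⋃ i, B i)}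
            = univ := by
          ext n; simp [hk]
        rw [this]; exact Filter.univ_mem
      · have h3 : {n | Dec (k + 1) (Function.update t k n) (⋃ i, B i)} ∉ UU :=
          fun h => hk (Dec.step h)
        have h4 := Ultrafilter.compl_mem_iff_notMem.2 h3
        refine Filter.mem_of_superset h4 ?_
        intro n hn _
        exact hn
    · exact (Filter.biInter_finset_mem _).2 (fun j _ => h1 _ _ _ _ _)
  · intro y a b
    have nd : ∀ k, m ≤ k → ¬ Dec k (trunc y k) (⋃ i, B i) := by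
      intro k hk
      induction k, hk using Nat.le_induction with
      | base =>
        intro h
        refine hs (h.congr ?_)
        intro i hi
        unfold trunc; rw [if_pos hi]; exact a i hi
      | succ k hk ih =>
        intro h
        refine (b k hk).1 ih (h.congr ?_)
        intro i hi
        by_cases hik : i = k
        · subst hik; simp [trunc]
        · rw [Function.update_of_ne hik]
          have : i < k := by omega
          simp [trunc, hi, this]
    simp only [compl_iUnion, mem_iInter]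
    intro i
    refine h2 (m + i) (trunc y (m + i)) i (nd _ (by omega)) y ?_ ?_
    · intro l hl; simp [trunc, hl]
    · intro k hk
      have h5 := (b k (by omega)).2
      simp only [mem_iInter] at h5
      have h6 := h5 (m + i) (Finset.mem_range.2 (by omega))
      rw [trunc_trunc y hk] at h6
      simpa using h6

/-- the sigma-algebra of sets decided above every stem -/
@[reducible] def decSpace : MeasurableSpace (ℕ → ℕ) where
  MeasurableSet' B := ∀ m s, Dec m s B ∨ Dec m s Bᶜ
  measurableSet_empty := fun m s =>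
    Or.inr ⟨fun _ _ => univ, fun _ _ => Filter.univ_mem, fun y _ _ => by simp⟩
  measurableSet_compl := fun B h m s => by
    rw [compl_compl]; exact (h m s).symm
  measurableSet_iUnion := fun B h m s => dec_iUnion B (fun i m s => h i m s) m s

lemma dec_coord (i : ℕ) (A : Set ℕ) (m : ℕ) (s : ℕ → ℕ) :
    Dec m s {y | y i ∈ A} ∨ Dec m s {y | y i ∈ A}ᶜ := by
  classical
  by_cases hi : i < m
  · by_cases hA : s i ∈ A
    · exact Or.inl ⟨fun _ _ => univ, fun _ _ => Filter.univ_mem, fun y a _ => by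
        show y i ∈ A
        rw [a i hi]; exact hA⟩
    · exact Or.inr ⟨fun _ _ => univ, fun _ _ => Filter.univ_mem, fun y a _ => by
        show ¬ (y i ∈ A)
        rw [a i hi]; exact hA⟩
  · rcases Ultrafilter.mem_or_compl_mem UU A with hA | hA
    · exact Or.inl ⟨fun _ _ => A, fun _ _ => hA, fun y _ b => b i (by omega)⟩
    · exact Or.inr ⟨fun _ _ => Aᶜ, fun _ _ => hA, fun y _ b => b i (by omega)⟩

lemma dec_of_measurable {B : Set (ℕ → ℕ)} (hB : MeasurableSet B) (m : ℕ) (s : ℕ → ℕ) :
    Dec m s B ∨ Dec m s Bᶜ := by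
  have h : (MeasurableSpace.pi : MeasurableSpace (ℕ → ℕ)) ≤ decSpace := by
    refine iSup_le (fun i => ?_)
    rintro _ ⟨A, -, rfl⟩
    exact dec_coord i A
  exact h B hB m s

lemma exists_follow (ρ : ℕ → (ℕ → ℕ) → Set ℕ) (hρ : ∀ k t, (ρ k t).Nonempty) :
    ∃ y : ℕ → ℕ, ∀ k, y k ∈ ρ k (trunc y k) := by
  classical
  choose g hg using hρ
  let T : ℕ → (ℕ → ℕ) := fun k =>
    Nat.rec (fun _ => 0) (fun k t => Function.update t k (g k t)) k
  have hT : ∀ k, T (k + 1) = Function.update (T k) k (g k (T k)) := fun k => rfl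
  let y : ℕ → ℕ := fun k => g k (T k)
  have e : ∀ k, trunc y k = T k := by
    intro k
    induction k with
    | zero => funext i; simp [trunc, T]
    | succ k ih =>
      funext i
      rw [hT]
      by_cases hik : i = k
      · subst hik; simp [trunc, y]
      · rw [Function.update_of_ne hik, ← ih]
        unfold trunc
        by_cases h1 : i < k
        · rw [if_pos h1, if_pos (by omega)]
        · rw [if_neg h1, if_neg (by omega)]
  exact ⟨y, fun k => by rw [e]; exact hg k (T k)⟩

lemma Dec.exists_pair {s : ℕ → ℕ} {B : Set (ℕ → ℕ)} (h : Dec 0 s B) :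
    ∃ y : ℕ → ℕ, StrictMono y ∧ y ∈ B ∧ sh y ∈ B := by
  obtain ⟨σ, h1, h2⟩ := h
  obtain ⟨y, hy⟩ := exists_follow
    (fun k t => σ k t ∩ σ (k - 1) (sh t) ∩ {n | t (k - 1) < n}) (by
      intro k t
      apply Ultrafilter.nonempty_of_mem (f := UU)
      refine Filter.inter_mem (Filter.inter_mem (h1 _ _) (h1 _ _)) ?_
      apply Filter.hyperfilter_le_cofinite
      rw [Nat.cofinite_eq_atTop]
      exact Filter.eventually_gt_atTop _)
  refine ⟨y, strictMono_nat_of_lt_succ (fun k => ?_), ?_, ?_⟩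
  · have := (hy (k + 1)).2
    simpa [trunc] using this
  · exact h2 y (fun i hi => absurd hi (by omega)) (fun k _ => (hy k).1.1)
  · refine h2 (sh y) (fun i hi => absurd hi (by omega)) (fun k _ => ?_)
    have := (hy (k + 1)).1.2
    have e : sh (trunc y (k + 1)) = trunc (sh y) k := by
      funext i; simp [sh, trunc]
    rw [e, Nat.add_sub_cancel] at this
    exact this

/-- No Borel colouring of the shift graph with three colours. -/
theorem no_three_colouring (c : (ℕ → ℕ) → ℕ) (hc : Measurable c) (h3 : ∀ y, c y < 3)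
    (hp : ∀ y, StrictMono y → c y ≠ c (sh y)) : False := by
  have key : ∀ i : ℕ, Dec 0 (fun _ => 0) (c ⁻¹' {i})ᶜ := by
    intro i
    rcases dec_of_measurable (hc (measurableSet_singleton i)) 0 (fun _ => 0) with h | h
    · obtain ⟨y, hy, a, b⟩ := h.exists_pair
      simp only [mem_preimage, mem_singleton_iff] at a b
      exact absurd (a.trans b.symm) (hp y hy)
    · exact h
  obtain ⟨y, -, a, -⟩ := (((key 0).inter (key 1)).inter (key 2)).exists_pair
  simp only [mem_inter_iff, mem_compl_iff, mem_preimage, mem_singleton_iff] at a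
  have := h3 y
  omega

end Pool.Agent.P.MP_b28ae3_lc
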