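import Mathlib
import Pool.Agent.P.MP_b28ae3_lc.Ramsey

/-! The combinatorial 3-colouring of the product, as a function of parity sequences. -/

set_option autoImplicit false

namespace Pool.Agent.P.MP_b28ae3_lc

open Classical

def E0 (b : ℕ → ℕ) : Prop := ∃ K, ∀ k, K ≤ k → b k % 2 = 0
def E1 (b : ℕ → ℕ) : Prop := ∃ K, ∀ k, K ≤ k → b k % 2 = 1
def W0 (b : ℕ → ℕ) : Prop := ∃ K, ∀ k, K ≤ k → (b k + k) % 2 = 0
def W1 (b : ℕ → ℕ) : Prop := ∃ K, ∀ k, K ≤ k → (b k + k) % 2 = 1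

/-- the type of a sequence -/
noncomputable def ty (b : ℕ → ℕ) : ℕ :=
  if E0 b then 0 else if E1 b then 1 else if W0 b then 2 else if W1 b then 3 else 4

lemma not_E0_E1 {b : ℕ → ℕ} (h : E0 b) (h' : E1 b) : False := by
  obtain ⟨K, h⟩ := h; obtain ⟨K', h'⟩ := h'
  have := h (K + K') (by omega); have := h' (K + K') (by omega); omega

lemma not_W0_W1 {b : ℕ → ℕ} (h : W0 b) (h' : W1 b) : False := by
  obtain ⟨K, h⟩ := h; obtain ⟨K', h'⟩ := h'
  have := h (K + K') (by omega); have := h' (K + K') (by omega); omega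

lemma not_E_W {b : ℕ → ℕ} (h : E0 b ∨ E1 b) (h' : W0 b ∨ W1 b) : False := by
  rcases h with ⟨K, h⟩ | ⟨K, h⟩ <;> rcases h' with ⟨K', h'⟩ | ⟨K', h'⟩ <;>
  · have := h (K + K') (by omega); have := h' (K + K') (by omega)
    have := h (K + K' + 1) (by omega); have := h' (K + K' + 1) (by omega); omega

lemma E0_sh {b : ℕ → ℕ} : E0 (sh b) ↔ E0 b :=
  ⟨fun ⟨K, h⟩ => ⟨K + 1, fun k hk => by
      have := h (k - 1) (by omega); unfold sh at this
      rwa [show k - 1 + 1 = k by omega] at this⟩,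
   fun ⟨K, h⟩ => ⟨K, fun k hk => h (k + 1) (by omega)⟩⟩

lemma E1_sh {b : ℕ → ℕ} : E1 (sh b) ↔ E1 b :=
  ⟨fun ⟨K, h⟩ => ⟨K + 1, fun k hk => by
      have := h (k - 1) (by omega); unfold sh at this
      rwa [show k - 1 + 1 = k by omega] at this⟩,
   fun ⟨K, h⟩ => ⟨K, fun k hk => h (k + 1) (by omega)⟩⟩

lemma W0_sh {b : ℕ → ℕ} : W0 (sh b) ↔ W1 b :=
  ⟨fun ⟨K, h⟩ => ⟨K + 1, fun k hk => by
      have := h (k - 1) (by omega); unfold sh at this
      rw [show k - 1 + 1 = k by omega] at this; omega⟩,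
   fun ⟨K, h⟩ => ⟨K, fun k hk => by
      have := h (k + 1) (by omega); unfold sh; omega⟩⟩

lemma W1_sh {b : ℕ → ℕ} : W1 (sh b) ↔ W0 b :=
  ⟨fun ⟨K, h⟩ => ⟨K + 1, fun k hk => by
      have := h (k - 1) (by omega); unfold sh at this
      rw [show k - 1 + 1 = k by omega] at this; omega⟩,
   fun ⟨K, h⟩ => ⟨K, fun k hk => by
      have := h (k + 1) (by omega); unfold sh; omega⟩⟩

/-- `b` exceeds `b'` by one from `j` on -/
def Rel (b b' : ℕ → ℕ) (j : ℕ) : Prop := ∀ k, j ≤ k → b k = b' k + 1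

lemma Rel.E0 {b b' : ℕ → ℕ} {j : ℕ} (r : Rel b b' j) : E0 b' ↔ E1 b :=
  ⟨fun ⟨K, h⟩ => ⟨K + j, fun k hk => by
      have := h k (by omega); have := r k (by omega); omega⟩,
   fun ⟨K, h⟩ => ⟨K + j, fun k hk => by
      have := h k (by omega); have := r k (by omega); omega⟩⟩

lemma Rel.E1 {b b' : ℕ → ℕ} {j : ℕ} (r : Rel b b' j) : E1 b' ↔ MP_b28ae3_lc.E0 b :=
  ⟨fun ⟨K, h⟩ => ⟨K + j, fun k hk => by
      have := h k (by omega); have := r k (by omega); omega⟩,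
   fun ⟨K, h⟩ => ⟨K + j, fun k hk => by
      have := h k (by omega); have := r k (by omega); omega⟩⟩

lemma Rel.W0 {b b' : ℕ → ℕ} {j : ℕ} (r : Rel b b' j) : W0 b' ↔ W1 b :=
  ⟨fun ⟨K, h⟩ => ⟨K + j, fun k hk => by
      have := h k (by omega); have := r k (by omega); omega⟩,
   fun ⟨K, h⟩ => ⟨K + j, fun k hk => by
      have := h k (by omega); have := r k (by omega); omega⟩⟩

lemma Rel.W1 {b b' : ℕ → ℕ} {j : ℕ} (r : Rel b b' j) : W1 b' ↔ MP_b28ae3_lc.W0 b :=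
  ⟨fun ⟨K, h⟩ => ⟨K + j, fun k hk => by
      have := h k (by omega); have := r k (by omega); omega⟩,
   fun ⟨K, h⟩ => ⟨K + j, fun k hk => by
      have := h k (by omega); have := r k (by omega); omega⟩⟩

lemma ty_cases (b : ℕ → ℕ) :
    (ty b = 0 ∧ E0 b ∧ ¬ E1 b ∧ ¬ W0 b ∧ ¬ W1 b) ∨ (ty b = 1 ∧ ¬ E0 b ∧ E1 b ∧ ¬ W0 b ∧ ¬ W1 b) ∨
    (ty b = 2 ∧ ¬ E0 b ∧ ¬ E1 b ∧ W0 b ∧ ¬ W1 b) ∨ (ty b = 3 ∧ ¬ E0 b ∧ ¬ E1 b ∧ ¬ W0 b ∧ W1 b) ∨
    (ty b = 4 ∧ ¬ E0 b ∧ ¬ E1 b ∧ ¬ W0 b ∧ ¬ W1 b) := by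
  have h1 := @not_E0_E1 b
  have h2 := @not_W0_W1 b
  have h3 := @not_E_W b
  unfold ty
  by_cases a : E0 b <;> by_cases c : E1 b <;> by_cases d : W0 b <;> by_cases e : W1 b <;>
    simp_all

lemma ty_sh (b : ℕ → ℕ) :
    (ty b = 0 ∧ ty (sh b) = 0) ∨ (ty b = 1 ∧ ty (sh b) = 1) ∨ (ty b = 2 ∧ ty (sh b) = 3) ∨
    (ty b = 3 ∧ ty (sh b) = 2) ∨ (ty b = 4 ∧ ty (sh b) = 4) := by
  have h1 := ty_cases b
  have h2 := ty_cases (sh b)
  rw [E0_sh, E1_sh, W0_sh, W1_sh] at h2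
  tauto

lemma ty_rel {b b' : ℕ → ℕ} {j : ℕ} (r : Rel b b' j) :
    (ty b = 0 ∧ ty b' = 1) ∨ (ty b = 1 ∧ ty b' = 0) ∨ (ty b = 2 ∧ ty b' = 3) ∨
    (ty b = 3 ∧ ty b' = 2) ∨ (ty b = 4 ∧ ty b' = 4) := by
  have h1 := ty_cases b
  have h2 := ty_cases b'
  rw [r.E0, r.E1, r.W0, r.W1] at h2
  tauto

/-- marker at place `k` -/
def Mk (b : ℕ → ℕ) (k : ℕ) : Prop :=
  (b k + b (k + 1)) % 2 = 1 ∧ (b (k + 1) + b (k + 2)) % 2 = 0

lemma exists_mk {b : ℕ → ℕ} (h : ty b = 4) (K : ℕ) : ∃ k, K ≤ k ∧ Mk b k := by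
  have h1 : ¬ E0 b ∧ ¬ E1 b ∧ ¬ W0 b ∧ ¬ W1 b := by
    rcases ty_cases b with h1 | h1 | h1 | h1 | h1
    all_goals first | exact h1.2 | (exfalso; omega)
  by_contra hno
  have hno' : ∀ k, K ≤ k → (b k + b (k + 1)) % 2 = 1 → (b (k + 1) + b (k + 2)) % 2 = 1 := by
    intro k hk h2
    by_contra h3
    exact hno ⟨k, hk, h2, by omega⟩
  by_cases hd : ∃ k, K ≤ k ∧ (b k + b (k + 1)) % 2 = 1
  · obtain ⟨k, hk, h2⟩ := hd
    have h3 : ∀ l, k ≤ l → (b l + b (l + 1)) % 2 = 1 ∧ (b l + l) % 2 = (b k + k) % 2 := by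
      intro l hl
      induction l, hl using Nat.le_induction with
      | base => exact ⟨h2, rfl⟩
      | succ l hl ih => exact ⟨hno' l (by omega) ih.1, by omega⟩
    rcases Nat.mod_two_eq_zero_or_one (b k + k) with h4 | h4
    · exact h1.2.2.1 ⟨k, fun l hl => (h3 l hl).2.trans h4⟩
    · exact h1.2.2.2 ⟨k, fun l hl => (h3 l hl).2.trans h4⟩
  · have h3 : ∀ l, K ≤ l → b l % 2 = b K % 2 := by
      intro l hl
      induction l, hl using Nat.le_induction with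
      | base => rfl
      | succ l hl ih =>
        have : ¬ ((b l + b (l + 1)) % 2 = 1) := fun h => hd ⟨l, hl, h⟩
        omega
    rcases Nat.mod_two_eq_zero_or_one (b K) with h4 | h4
    · exact h1.1 ⟨K, fun l hl => (h3 l hl).trans h4⟩
    · exact h1.2.1 ⟨K, fun l hl => (h3 l hl).trans h4⟩

/-- the first marker sits at an odd place -/
def OddFirst (b : ℕ → ℕ) : Prop := ∃ m, m % 2 = 1 ∧ Mk b m ∧ ∀ k, k < m → ¬ Mk b k

/-- the marker colouring -/
noncomputable def fc (b : ℕ → ℕ) : ℕ := if Mk b 0 then 2 else if OddFirst b then 1 else 0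

lemma fc_lt (b : ℕ → ℕ) : fc b < 3 := by
  unfold fc; split_ifs <;> omega

lemma mk_sh (b : ℕ → ℕ) (k : ℕ) : Mk (sh b) k ↔ Mk b (k + 1) := Iff.rfl

lemma oddFirst_iff {b : ℕ → ℕ} {m : ℕ} (h1 : Mk b m) (h2 : ∀ k, k < m → ¬ Mk b k) :
    OddFirst b ↔ m % 2 = 1 := by
  constructor
  · rintro ⟨m', a, c, d⟩
    rcases lt_trichotomy m m' with h | h | h
    · exact absurd h1 (d m h)
    · rw [h]; exact a
    · exact absurd c (h2 m' h)
  · intro h; exact ⟨m, h, h1, h2⟩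

lemma fc_ne {b : ℕ → ℕ} (h : ty b = 4) : fc b ≠ fc (sh b) := by
  have hex : ∃ m, Mk (sh b) m := by
    obtain ⟨k, hk, h1⟩ := exists_mk h 1
    refine ⟨k - 1, ?_⟩
    rw [mk_sh, show k - 1 + 1 = k by omega]; exact h1
  have m1 := Nat.find_spec hex
  have m2 : ∀ k, k < Nat.find hex → ¬ Mk (sh b) k := fun k hk => Nat.find_min hex hk
  generalize Nat.find hex = m at m1 m2
  have o1 := oddFirst_iff m1 m2
  by_cases h0 : Mk b 0
  · have h1 : ¬ Mk (sh b) 0 := by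
      intro h1
      have h2 : (b 1 + b 2) % 2 = 1 := h1.1
      have h3 : (b 1 + b 2) % 2 = 0 := h0.2
      omega
    unfold fc
    rw [if_pos h0, if_neg h1]
    split_ifs <;> omega
  · have o2 : OddFirst b ↔ (m + 1) % 2 = 1 := by
      apply oddFirst_iff ((mk_sh b m).1 m1)
      intro k hk
      rcases k with _ | k
      · exact h0
      · exact fun h => m2 k (by omega) ((mk_sh b k).2 h)
    unfold fc
    rw [if_neg h0]
    by_cases hm : m = 0
    · subst hm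
      rw [if_pos m1]; split_ifs <;> omega
    · rw [if_neg (m2 0 (by omega))]
      by_cases hp : m % 2 = 1
      · rw [if_pos (o1.2 hp), if_neg (fun h => by have := o2.1 h; omega)]; omega
      · rw [if_neg (fun h => hp (o1.1 h)), if_pos (o2.2 (by omega))]; omega

lemma fc_rel {b b' : ℕ → ℕ} (r : Rel b b' 0) : fc b = fc b' := by
  have h : ∀ k, Mk b k ↔ Mk b' k := by
    intro k
    have := r k (by omega); have := r (k + 1) (by omega); have := r (k + 2) (by omega)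
    unfold Mk; omega
  have h' : OddFirst b ↔ OddFirst b' := by
    unfold OddFirst; simp only [h]
  unfold fc
  simp only [h, h']

/-- signed step between two different colours -/
def inc (u v : ℕ) : ℤ := if u = (v + 1) % 3 then 1 else -1

/-- height above the `j`-th shift -/
noncomputable def ht : ℕ → (ℕ → ℕ) → ℤ
  | 0, _ => 0
  | j + 1, b => inc (fc b) (fc (sh b)) + ht j (sh b)

/-- colour of the `j`-th shift -/
noncomputable def base : ℕ → (ℕ → ℕ) → ℕ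
  | 0, b => fc b
  | j + 1, b => base j (sh b)

lemma inc_cases (u v : ℕ) : inc u v = 1 ∨ inc u v = -1 := by
  unfold inc; split_ifs <;> simp

lemma ht_facts (j : ℕ) : ∀ b, (ht j b - j) % 2 = 0 ∧ -(j : ℤ) ≤ ht j b ∧ ht j b ≤ j := by
  induction j with
  | zero => intro b; simp [ht]
  | succ j ih =>
    intro b
    have h1 := ih (sh b)
    have h2 := inc_cases (fc b) (fc (sh b))
    simp only [ht]
    push_cast
    omega

lemma ty_sh_four {b : ℕ → ℕ} (h : ty b = 4) : ty (sh b) = 4 := by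
  have := ty_sh b; omega

lemma base_ht (j : ℕ) : ∀ b, ty b = 4 → ((base j b : ℤ) + ht j b) % 3 = fc b := by
  induction j with
  | zero =>
    intro b _
    have := fc_lt b
    simp only [base, ht]; omega
  | succ j ih =>
    intro b hb
    have h1 := ih (sh b) (ty_sh_four hb)
    have h2 := fc_ne hb
    have h3 := fc_lt b
    have h4 := fc_lt (sh b)
    simp only [base, ht, inc]
    split_ifs <;> omega

lemma rel_sh {b b' : ℕ → ℕ} {j : ℕ} (r : Rel b b' j) : Rel (sh b) (sh b') (j - 1) :=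
  fun k hk => r (k + 1) (by omega)

lemma base_rel (j : ℕ) : ∀ b b', Rel b b' j → base j b = base j b' := by
  induction j with
  | zero => intro b b' r; exact fc_rel r
  | succ j ih => intro b b' r; exact ih _ _ (rel_sh r)

/-- zigzag wave -/
def Zz (t : ℤ) (j : ℕ) : ℤ := t - (t - j) % 2

/-- interpolated height -/
def Hh (h h' : ℤ) (j : ℕ) (t : ℤ) : ℤ := max (min h (Zz (1 - t) j)) (min h' (Zz t j))

/-- rigid colouring of a strip starting from colour `θ` -/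
def colU (θ i : ℕ) : ℕ := if i % 3 = 0 then θ else if i % 3 = 1 then 1 - θ else 2

/-- rotation from `β` to `1 - β` -/
def colW (β i : ℕ) : ℕ :=
  if i / 2 = 0 then β else if i / 2 = 1 then 2 - β else if i / 2 = 2 then 2 - 2 * β else 1 - β

/-- final formula, a function of finitely many numbers -/
def colF (τ bs : ℕ) (h h' : ℤ) (j N i : ℕ) : ℕ :=
  if τ = 0 then colU 0 i else if τ = 1 then colU 1 i else if τ = 2 then colW 0 i
  else if τ = 3 then colW 1 i else (((bs : ℤ) + Hh h h' j (((i / 2 : ℕ) : ℤ) - N)) % 3).toNat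

noncomputable def Col (b b' : ℕ → ℕ) (j N i : ℕ) : ℕ :=
  colF (ty b) (base j b) (ht j b) (ht j b') j N i

lemma colF_lt (τ bs : ℕ) (h h' : ℤ) (j N i : ℕ) : colF τ bs h h' j N i < 3 := by
  unfold colF colU colW
  split_ifs <;> omega

lemma Hh_zero (t : ℤ) : Hh 0 0 0 t = 0 := by
  unfold Hh Zz; simp only [Nat.cast_zero]; omega

lemma min_step (a a' c c' : ℤ) (h1 : a = a' + 1 ∨ a = a' - 1) (h2 : c = c' + 1 ∨ c = c' - 1)
    (hp : (a - c) % 2 = 0) : min a c = min a' c' + 1 ∨ min a c = min a' c' - 1 := by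
  omega

lemma max_step (a a' c c' : ℤ) (h1 : a = a' + 1 ∨ a = a' - 1) (h2 : c = c' + 1 ∨ c = c' - 1)
    (hp : (a - c) % 2 = 0) : max a c = max a' c' + 1 ∨ max a c = max a' c' - 1 := by
  omega

lemma Zz_step (j : ℕ) (t t' : ℤ) (ht : t' = t ∨ t' = t + 1 ∨ t' = t - 1) :
    Zz t (j + 1) = Zz t' j + 1 ∨ Zz t (j + 1) = Zz t' j - 1 := by
  unfold Zz; push_cast; omega

lemma Zz_par (j : ℕ) (t : ℤ) : (Zz t j - j) % 2 = 0 := by
  unfold Zz; omega

lemma min_par (a c d : ℤ) (h1 : (a - d) % 2 = 0) (h2 : (c - d) % 2 = 0) :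
    (min a c - d) % 2 = 0 := by
  omega

lemma Hh_step (h h' e e' : ℤ) (j : ℕ) (t t' : ℤ) (he : e = 1 ∨ e = -1) (he' : e' = 1 ∨ e' = -1)
    (hp : (h - j) % 2 = 0) (hp' : (h' - j) % 2 = 0) (ht : t' = t ∨ t' = t + 1 ∨ t' = t - 1) :
    Hh (e + h) (e' + h') (j + 1) t = Hh h h' j t' + 1 ∨
    Hh (e + h) (e' + h') (j + 1) t = Hh h h' j t' - 1 := by
  unfold Hh
  have p1 := Zz_par (j + 1) (1 - t)
  have p2 := Zz_par (j + 1) t
  have q1 : (e + h - ((j + 1 : ℕ) : ℤ)) % 2 = 0 := by push_cast; omega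
  have q2 : (e' + h' - ((j + 1 : ℕ) : ℤ)) % 2 = 0 := by push_cast; omega
  have r1 := min_par _ _ _ q1 p1
  have r2 := min_par _ _ _ q2 p2
  apply max_step
  · exact min_step _ _ _ _ (by omega) (Zz_step j _ _ (by omega)) (by omega)
  · exact min_step _ _ _ _ (by omega) (Zz_step j _ _ (by omega)) (by omega)
  · omega

lemma colW_ne (i i' : ℕ) (h1 : i ≤ i' + 2) (h2 : i' ≤ i + 2) : colW 0 i ≠ colW 1 i' := by
  unfold colW
  intro h
  split_ifs at h <;> omega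

/-- edges inside a strip -/
lemma col_strip {b b' : ℕ → ℕ} (j N i i' : ℕ) (hi : i ≠ i') (h1 : i ≤ i' + 2) (h2 : i' ≤ i + 2) :
    Col b b' j N i ≠ Col (sh b) (sh b') (j - 1) N i' := by
  unfold Col colF
  rcases ty_sh b with ⟨a, c⟩ | ⟨a, c⟩ | ⟨a, c⟩ | ⟨a, c⟩ | ⟨a, c⟩ <;> rw [a, c]
  · simp only [if_true]; unfold colU; split_ifs <;> omega
  · simp only [one_ne_zero, if_false, if_true]; unfold colU; split_ifs <;> omega
  · norm_num; exact colW_ne _ _ h1 h2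
  · norm_num; exact (colW_ne _ _ h2 h1).symm
  · rw [if_neg (by omega), if_neg (by omega), if_neg (by omega), if_neg (by omega),
      if_neg (by omega), if_neg (by omega), if_neg (by omega), if_neg (by omega)]
    rcases j with _ | j
    · simp only [Nat.zero_sub, base, ht, Hh_zero]
      have := fc_ne a
      have := fc_lt b
      have := fc_lt (sh b)
      omega
    · simp only [Nat.add_sub_cancel, base, ht]
      have := Hh_step (ht j (sh b)) (ht j (sh b')) _ _ j (((i / 2 : ℕ) : ℤ) - N)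
        (((i' / 2 : ℕ) : ℤ) - N)
        (inc_cases (fc b) (fc (sh b))) (inc_cases (fc b') (fc (sh b')))
        (ht_facts j _).1 (ht_facts j _).1 (by omega)
      omega

/-- colour at a base vertex -/
noncomputable def st (b : ℕ → ℕ) : ℕ :=
  if ty b = 0 then 0 else if ty b = 1 then 1 else if ty b = 2 then 0 else if ty b = 3 then 1
  else fc b

lemma col_start (b b' : ℕ → ℕ) (j N : ℕ) (hj : j ≤ N) : Col b b' j N 0 = st b := by
  unfold Col colF st
  by_cases h4 : ty b = 4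
  · rw [h4]
    norm_num
    have h1 := ht_facts j b
    have h2 := ht_facts j b'
    have h3 := base_ht j b h4
    have h5 : Hh (ht j b) (ht j b') j (-(N : ℤ)) = ht j b := by
      unfold Hh Zz; omega
    rw [h5, h3]; simp
  · have := ty_sh b
    split_ifs <;> first | rfl | omega

/-- colour at the far end of a strip -/
noncomputable def en (b' : ℕ → ℕ) : ℕ :=
  if ty b' = 0 then 1 else if ty b' = 1 then 0 else if ty b' = 2 then 0 else if ty b' = 3 then 1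
  else fc b'

lemma col_end {b b' : ℕ → ℕ} {j : ℕ} (r : Rel b b' j) (N : ℕ) (hj : j ≤ N) (hN : 1 ≤ N) :
    Col b b' j N (6 * N) = en b' := by
  unfold Col colF en
  rcases ty_rel r with ⟨a, c⟩ | ⟨a, c⟩ | ⟨a, c⟩ | ⟨a, c⟩ | ⟨a, c⟩ <;> rw [a, c]
  · norm_num; unfold colU; split_ifs <;> omega
  · norm_num; unfold colU; split_ifs <;> omega
  · norm_num; unfold colW; split_ifs <;> omega
  · norm_num; unfold colW; split_ifs <;> omega
  · rw [if_neg (by omega), if_neg (by omega), if_neg (by omega), if_neg (by omega),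
      if_neg (by omega), if_neg (by omega), if_neg (by omega), if_neg (by omega)]
    have h1 := ht_facts j b
    have h2 := ht_facts j b'
    have h3 := base_ht j b' c
    have h5 : Hh (ht j b) (ht j b') j (((6 * N / 2 : ℕ) : ℤ) - N) = ht j b' := by
      unfold Hh Zz; omega
    rw [h5, base_rel j b b' r, h3]; simp

lemma en_ne_st (b : ℕ → ℕ) : en b ≠ st (sh b) := by
  unfold en st
  rcases ty_sh b with ⟨a, c⟩ | ⟨a, c⟩ | ⟨a, c⟩ | ⟨a, c⟩ | ⟨a, c⟩ <;> rw [a, c] <;> norm_num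
  exact fc_ne a

lemma st_ne_en (b : ℕ → ℕ) : st b ≠ en (sh b) := by
  unfold en st
  rcases ty_sh b with ⟨a, c⟩ | ⟨a, c⟩ | ⟨a, c⟩ | ⟨a, c⟩ | ⟨a, c⟩ <;> rw [a, c] <;> norm_num
  exact fc_ne a

end Pool.Agent.P.MP_b28ae3_lc
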