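import Mathlib
import Pool.Agent.P.MP_b28ae3_lc.Colour

/-! The two Borel graphs and the Borel 3-colouring of their product. -/

set_option autoImplicit false

namespace Pool.Agent.P.MP_b28ae3_lc

open Classical

/-- number of terms of `z` below `m` (for strictly increasing `z`) -/
def cnt (z : ℕ → ℕ) (m : ℕ) : ℕ := ∑ j ∈ Finset.range m, if z j < m then 1 else 0

lemma cnt_le (z : ℕ → ℕ) (m : ℕ) : cnt z m ≤ m := by
  unfold cnt
  calc _ ≤ ∑ _j ∈ Finset.range m, 1 := Finset.sum_le_sum (fun j _ => by split_ifs <;> omega)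
    _ = m := by simp

lemma lt_cnt {z : ℕ → ℕ} (hz : StrictMono z) (m j : ℕ) : j < cnt z m ↔ z j < m := by
  have hex : ∃ n, m ≤ z n := ⟨m, hz.id_le m⟩
  have h1 := Nat.find_spec hex
  have h2 : ∀ k, k < Nat.find hex → z k < m := fun k hk => not_le.1 (Nat.find_min hex hk)
  generalize Nat.find hex = n at h1 h2
  have h3 : ∀ k, k < n ↔ z k < m := fun k =>
    ⟨h2 k, fun h => by
      by_contra hk
      have := hz.monotone (not_lt.1 hk)
      omega⟩
  have h4 : cnt z m = n := by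
    unfold cnt
    rw [← Finset.card_filter]
    have : (Finset.range m).filter (fun j => z j < m) = Finset.range n := by
      ext k
      simp only [Finset.mem_filter, Finset.mem_range, h3]
      exact ⟨fun h => h.2, fun h => ⟨lt_of_le_of_lt (hz.id_le k) h, h⟩⟩
    rw [this, Finset.card_range]
  rw [h4, h3]

lemma strictMono_sh {z : ℕ → ℕ} (hz : StrictMono z) : StrictMono (sh z) :=
  fun _ _ h => hz (Nat.succ_lt_succ h)

lemma cnt_sh {z : ℕ → ℕ} (hz : StrictMono z) (m : ℕ) : cnt (sh z) m = cnt z m - 1 := by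
  apply eq_of_forall_lt_iff
  intro j
  rw [lt_cnt (strictMono_sh hz), Nat.lt_sub_iff_add_lt, lt_cnt hz]
  rfl

/-- the counting sequence of `z` along `y` -/
def bb (y z : ℕ → ℕ) : ℕ → ℕ := fun k => cnt z (y k)

lemma rel_bb {y z : ℕ → ℕ} (hy : StrictMono y) (hz : StrictMono z) :
    Rel (bb y z) (bb y (sh z)) (cnt y (z 0 + 1)) := by
  intro k hk
  have h1 : ¬ (y k < z 0 + 1) := fun h => absurd ((lt_cnt hy _ _).2 h) (by omega)
  have h2 : 0 < cnt z (y k) := (lt_cnt hz _ _).2 (by omega)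
  unfold bb
  rw [cnt_sh hz]; omega

/-- the colouring of the product -/
noncomputable def cc (p : (ℕ → ℕ) × ((ℕ → ℕ) × ℕ)) : ℕ :=
  Col (bb p.1 p.2.1) (bb p.1 (sh p.2.1)) (cnt p.1 (p.2.1 0 + 1)) (p.2.1 0 + 1) p.2.2

lemma cc_lt (p : (ℕ → ℕ) × ((ℕ → ℕ) × ℕ)) : cc p < 3 := colF_lt _ _ _ _ _ _ _

lemma cc_strip {y : ℕ → ℕ} (hy : StrictMono y) (z : ℕ → ℕ) (i i' : ℕ) (hi : i ≠ i')
    (h1 : i ≤ i' + 2) (h2 : i' ≤ i + 2) : cc (y, (z, i)) ≠ cc (sh y, (z, i')) := by
  unfold cc
  simp only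
  rw [cnt_sh hy]
  exact col_strip _ _ _ _ hi h1 h2

lemma cc_start (y z : ℕ → ℕ) : cc (y, (z, 0)) = st (bb y z) :=
  col_start _ _ _ _ (cnt_le _ _)

lemma cc_end {y z : ℕ → ℕ} (hy : StrictMono y) (hz : StrictMono z) :
    cc (y, (z, 6 * (z 0 + 1))) = en (bb y (sh z)) :=
  col_end (rel_bb hy hz) _ (cnt_le _ _) (by omega)

/-- the shift graph -/
def GS : SimpleGraph (ℕ → ℕ) where
  Adj y y' := (StrictMono y ∧ y' = sh y) ∨ (StrictMono y' ∧ y = sh y')
  symm := ⟨fun _ _ h => h.symm⟩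
  loopless := ⟨fun y h => by
    have : StrictMono y ∧ y = sh y := by rcases h with h | h <;> exact h
    have h1 := congrFun this.2 0
    have h2 := this.1 (show 0 < 1 by omega)
    unfold sh at h1
    simp only [zero_add] at h1
    omega⟩

/-- directed edges of the second graph -/
def Ed (p q : (ℕ → ℕ) × ℕ) : Prop :=
  StrictMono p.1 ∧ ((q.1 = p.1 ∧ (q.2 = p.2 + 1 ∨ q.2 = p.2 + 2) ∧ q.2 ≤ 6 * (p.1 0 + 1)) ∨
    (p.2 = 6 * (p.1 0 + 1) ∧ q.1 = sh p.1 ∧ q.2 = 0))

/-- the shift graph with every edge replaced by a long rigid strip -/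
def GT : SimpleGraph ((ℕ → ℕ) × ℕ) where
  Adj p q := Ed p q ∨ Ed q p
  symm := ⟨fun _ _ h => h.symm⟩
  loopless := ⟨fun p h => by
    have : Ed p p := by rcases h with h | h <;> exact h
    unfold Ed at this
    omega⟩

lemma cc_sh {y : ℕ → ℕ} (hy : StrictMono y) {p q : (ℕ → ℕ) × ℕ} (h : GT.Adj p q) :
    cc (y, p) ≠ cc (sh y, q) := by
  obtain ⟨z, i⟩ := p
  obtain ⟨z', i'⟩ := q
  rcases h with ⟨hz, h | h⟩ | ⟨hz, h | h⟩
  · simp only at h hz
    obtain ⟨rfl, h1, -⟩ := h
    exact cc_strip hy _ _ _ (by omega) (by omega) (by omega)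
  · simp only at h hz
    obtain ⟨rfl, rfl, rfl⟩ := h
    rw [cc_end hy hz, cc_start]
    exact en_ne_st _
  · simp only at h hz
    obtain ⟨rfl, h1, -⟩ := h
    exact cc_strip hy _ _ _ (by omega) (by omega) (by omega)
  · simp only at h hz
    obtain ⟨rfl, rfl, rfl⟩ := h
    rw [cc_end (strictMono_sh hy) hz, cc_start]
    exact st_ne_en _

theorem cc_proper (x y : ℕ → ℕ) (x' y' : (ℕ → ℕ) × ℕ) (h : GS.Adj x y) (h' : GT.Adj x' y') :
    cc (x, x') ≠ cc (y, y') := by
  rcases h with ⟨h, rfl⟩ | ⟨h, rfl⟩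
  · exact cc_sh h h'
  · exact (cc_sh h h'.symm).symm

/-! measurability -/

lemma meas_dep {X β : Type} [MeasurableSpace X] [MeasurableSpace β] (F : ℕ → X → β)
    (hF : ∀ n, Measurable (F n)) (f : X → ℕ) (hf : Measurable f) :
    Measurable (fun x => F (f x) x) := by
  have : Measurable (fun p : X × ℕ => F p.2 p.1) := measurable_from_prod_countable_left hF
  exact this.comp (measurable_id.prodMk hf)

lemma meas_sh : Measurable sh :=
  measurable_pi_lambda _ (fun k => measurable_pi_apply (k + 1))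

lemma meas_two (P : ℕ → ℕ → Prop) (i j : ℕ) : Measurable (fun b : ℕ → ℕ => P (b i) (b j)) := by
  have h : Measurable (fun b : ℕ → ℕ => (b i, b j)) :=
    (measurable_pi_apply i).prodMk (measurable_pi_apply j)
  exact (measurable_of_countable (fun p : ℕ × ℕ => P p.1 p.2)).comp h

lemma meas_one (P : ℕ → Prop) (i : ℕ) : Measurable (fun b : ℕ → ℕ => P (b i)) :=
  (measurable_of_countable P).comp (measurable_pi_apply i)

lemma meas_strictMono : Measurable (fun y : ℕ → ℕ => StrictMono y) := by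
  unfold StrictMono
  exact Measurable.forall (fun a => Measurable.forall (fun c =>
    Measurable.forall (fun _ => meas_two (fun u v => u < v) a c)))

lemma meas_ev (P : ℕ → ℕ → Prop) :
    MeasurableSet {b : ℕ → ℕ | ∃ K, ∀ k, K ≤ k → P k (b k)} :=
  measurableSet_setOfPred.2 (Measurable.exists (fun _ => Measurable.forall (fun k =>
    Measurable.forall (fun _ => meas_one (P k) k))))

lemma meas_ty : Measurable ty := by
  unfold ty
  refine Measurable.ite (meas_ev (fun _ u => u % 2 = 0)) measurable_const ?_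
  refine Measurable.ite (meas_ev (fun _ u => u % 2 = 1)) measurable_const ?_
  refine Measurable.ite (meas_ev (fun k u => (u + k) % 2 = 0)) measurable_const ?_
  exact Measurable.ite (meas_ev (fun k u => (u + k) % 2 = 1)) measurable_const measurable_const

lemma meas_mk (k : ℕ) : Measurable (fun b : ℕ → ℕ => Mk b k) :=
  (meas_two (fun u v => (u + v) % 2 = 1) k (k + 1)).and
    (meas_two (fun u v => (u + v) % 2 = 0) (k + 1) (k + 2))

lemma meas_fc : Measurable fc := by
  unfold fc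
  refine Measurable.ite (measurableSet_setOfPred.2 (meas_mk 0)) measurable_const ?_
  refine Measurable.ite (measurableSet_setOfPred.2 ?_) measurable_const measurable_const
  exact Measurable.exists (fun m => measurable_const.and ((meas_mk m).and
    (Measurable.forall (fun k => Measurable.forall (fun _ => (meas_mk k).not)))))

lemma meas_ht (j : ℕ) : Measurable (ht j) := by
  induction j with
  | zero => exact measurable_const
  | succ j ih =>
    have h1 : Measurable (fun b => inc (fc b) (fc (sh b))) :=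
      (measurable_of_countable (fun p : ℕ × ℕ => inc p.1 p.2)).comp
        (meas_fc.prodMk (meas_fc.comp meas_sh))
    exact h1.add (ih.comp meas_sh)

lemma meas_base (j : ℕ) : Measurable (base j) := by
  induction j with
  | zero => exact meas_fc
  | succ j ih => exact ih.comp meas_sh

lemma meas_cnt (m : ℕ) : Measurable (fun z => cnt z m) := by
  unfold cnt
  refine Finset.measurable_sum _ (fun j _ => ?_)
  exact Measurable.ite (measurableSet_setOfPred.2 (meas_one (fun u => u < m) j)) measurable_const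
    measurable_const

lemma meas_bb {X : Type} [MeasurableSpace X] {f g : X → ℕ → ℕ} (hf : Measurable f)
    (hg : Measurable g) : Measurable (fun x => bb (f x) (g x)) := by
  refine measurable_pi_lambda _ (fun k => ?_)
  exact meas_dep (fun m x => cnt (g x) m) (fun m => (meas_cnt m).comp hg) (fun x => f x k)
    ((measurable_pi_apply k).comp hf)

theorem meas_cc : Measurable cc := by
  have hy : Measurable (fun p : (ℕ → ℕ) × ((ℕ → ℕ) × ℕ) => p.1) := measurable_fst
  have hz : Measurable (fun p : (ℕ → ℕ) × ((ℕ → ℕ) × ℕ) => p.2.1) :=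
    measurable_fst.comp measurable_snd
  have hi : Measurable (fun p : (ℕ → ℕ) × ((ℕ → ℕ) × ℕ) => p.2.2) :=
    measurable_snd.comp measurable_snd
  have hN : Measurable (fun p : (ℕ → ℕ) × ((ℕ → ℕ) × ℕ) => p.2.1 0 + 1) :=
    ((measurable_pi_apply 0).comp hz).add measurable_const
  have hb := meas_bb hy hz
  have hb' := meas_bb hy (meas_sh.comp hz)
  have hj : Measurable (fun p : (ℕ → ℕ) × ((ℕ → ℕ) × ℕ) => cnt p.1 (p.2.1 0 + 1)) :=
    meas_dep (fun m (p : (ℕ → ℕ) × ((ℕ → ℕ) × ℕ)) => cnt p.1 m) (fun m => (meas_cnt m).comp hy) _ hN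
  have h1 := meas_ty.comp hb
  have h2 := meas_dep (fun j (p : (ℕ → ℕ) × ((ℕ → ℕ) × ℕ)) => base j (bb p.1 p.2.1))
    (fun j => (meas_base j).comp hb) _ hj
  have h3 := meas_dep (fun j (p : (ℕ → ℕ) × ((ℕ → ℕ) × ℕ)) => ht j (bb p.1 p.2.1))
    (fun j => (meas_ht j).comp hb) _ hj
  have h4 := meas_dep (fun j (p : (ℕ → ℕ) × ((ℕ → ℕ) × ℕ)) => ht j (bb p.1 (sh p.2.1)))
    (fun j => (meas_ht j).comp hb') _ hj
  exact (measurable_of_countable (fun q : ℕ × ℕ × ℤ × ℤ × ℕ × ℕ × ℕ =>
      colF q.1 q.2.1 q.2.2.1 q.2.2.2.1 q.2.2.2.2.1 q.2.2.2.2.2.1 q.2.2.2.2.2.2)).comp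
    (h1.prodMk (h2.prodMk (h3.prodMk (h4.prodMk (hj.prodMk (hN.prodMk hi))))))

lemma meas_eq {X : Type} [MeasurableSpace X] {f g : X → ℕ → ℕ} (hf : Measurable f)
    (hg : Measurable g) : Measurable (fun x => f x = g x) := by
  simp only [funext_iff]
  refine Measurable.forall (fun k => ?_)
  exact (measurable_of_countable (fun p : ℕ × ℕ => p.1 = p.2)).comp
    (((measurable_pi_apply k).comp hf).prodMk ((measurable_pi_apply k).comp hg))

theorem meas_GS : MeasurableSet {p : (ℕ → ℕ) × (ℕ → ℕ) | GS.Adj p.1 p.2} := by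
  refine measurableSet_setOfPred.2 ?_
  exact ((meas_strictMono.comp measurable_fst).and
      (meas_eq measurable_snd (meas_sh.comp measurable_fst))).or
    ((meas_strictMono.comp measurable_snd).and
      (meas_eq measurable_fst (meas_sh.comp measurable_snd)))

lemma meas_Ed {X : Type} [MeasurableSpace X] {f g : X → (ℕ → ℕ) × ℕ} (hf : Measurable f)
    (hg : Measurable g) : Measurable (fun x => Ed (f x) (g x)) := by
  have h0 : Measurable (fun x => (f x).1 0) := (measurable_pi_apply 0).comp hf.fst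
  have h3 := h0.prodMk (hf.snd.prodMk hg.snd)
  unfold Ed
  refine (meas_strictMono.comp hf.fst).and (Measurable.or ?_ ?_)
  · exact (meas_eq hg.fst hf.fst).and
      ((measurable_of_countable (fun q : ℕ × ℕ × ℕ =>
        (q.2.2 = q.2.1 + 1 ∨ q.2.2 = q.2.1 + 2) ∧ q.2.2 ≤ 6 * (q.1 + 1))).comp h3)
  · exact ((measurable_of_countable (fun q : ℕ × ℕ × ℕ => q.2.1 = 6 * (q.1 + 1))).comp h3).and
      ((meas_eq hg.fst (meas_sh.comp hf.fst)).and
        ((measurable_of_countable (fun q : ℕ × ℕ × ℕ => q.2.2 = 0)).comp h3))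

theorem meas_GT :
    MeasurableSet {p : ((ℕ → ℕ) × ℕ) × ((ℕ → ℕ) × ℕ) | GT.Adj p.1 p.2} :=
  measurableSet_setOfPred.2
    ((meas_Ed measurable_fst measurable_snd).or (meas_Ed measurable_snd measurable_fst))

/-- four colours suffice for the second graph -/
def c4 (i : ℕ) : ℕ := if i = 0 then 0 else i % 3 + 1

theorem GT_four : ∃ c : (ℕ → ℕ) × ℕ → ℕ, Measurable c ∧ (∀ x, c x < 4) ∧
    ∀ x y, GT.Adj x y → c x ≠ c y := by
  refine ⟨fun p => c4 p.2, (measurable_of_countable c4).comp measurable_snd, ?_, ?_⟩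
  · intro x; show c4 x.2 < 4; unfold c4; split_ifs <;> omega
  · have : ∀ x y, Ed x y → c4 x.2 ≠ c4 y.2 := by
      intro x y h
      unfold Ed at h
      unfold c4
      intro h'
      split_ifs at h' <;> omega
    intro x y h
    rcases h with h | h
    · exact this x y h
    · exact (this y x h).symm

theorem GS_not_three : ¬ ∃ c : (ℕ → ℕ) → ℕ, Measurable c ∧ (∀ x, c x < 3) ∧
    ∀ x y, GS.Adj x y → c x ≠ c y := by
  rintro ⟨c, h1, h2, h3⟩
  exact no_three_colouring c h1 h2 (fun y hy => h3 y (sh y) (Or.inl ⟨hy, rfl⟩))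

theorem GT_not_three : ¬ ∃ c : (ℕ → ℕ) × ℕ → ℕ, Measurable c ∧ (∀ x, c x < 3) ∧
    ∀ x y, GT.Adj x y → c x ≠ c y := by
  rintro ⟨c, h1, h2, h3⟩
  refine no_three_colouring (fun z => c (z, 0)) (h1.comp (measurable_id.prodMk measurable_const))
    (fun z => h2 _) (fun z hz => ?_)
  have e1 : ∀ i, i + 1 ≤ 6 * (z 0 + 1) → c (z, i) ≠ c (z, i + 1) := fun i hi =>
    h3 _ _ (Or.inl ⟨hz, Or.inl ⟨rfl, Or.inl rfl, hi⟩⟩)
  have e2 : ∀ i, i + 2 ≤ 6 * (z 0 + 1) → c (z, i) ≠ c (z, i + 2) := fun i hi =>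
    h3 _ _ (Or.inl ⟨hz, Or.inl ⟨rfl, Or.inr rfl, hi⟩⟩)
  have e3 : ∀ k, 3 * k ≤ 6 * (z 0 + 1) → c (z, 3 * k) = c (z, 0) := by
    intro k
    induction k with
    | zero => intro _; rfl
    | succ k ih =>
      intro hk
      rw [← ih (by omega), show 3 * (k + 1) = 3 * k + 1 + 2 by omega]
      have a1 := e1 (3 * k) (by omega)
      have a2 := e2 (3 * k) (by omega)
      have a3 := e1 (3 * k + 1) (by omega)
      have a4 := e2 (3 * k + 1) (by omega)
      have a5 := e1 (3 * k + 2) (by omega)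
      have b0 := h2 (z, 3 * k)
      have b1 := h2 (z, 3 * k + 1)
      have b2 := h2 (z, 3 * k + 2)
      have b3 := h2 (z, 3 * k + 1 + 2)
      rw [show 3 * k + 1 + 1 = 3 * k + 2 by omega] at a3
      rw [show 3 * k + 2 + 1 = 3 * k + 1 + 2 by omega] at a5
      omega
  have e4 : c (z, 6 * (z 0 + 1)) ≠ c (sh z, 0) :=
    h3 _ _ (Or.inl ⟨hz, Or.inr ⟨rfl, rfl, rfl⟩⟩)
  have e5 := e3 (2 * (z 0 + 1)) (by omega)
  rw [show 3 * (2 * (z 0 + 1)) = 6 * (z 0 + 1) by omega] at e5
  show c (z, 0) ≠ c (sh z, 0)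
  rw [← e5]; exact e4

end Pool.Agent.P.MP_b28ae3_lc
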