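import Mathlib
import Pool.Agent.P.MP_b28ae3_lc.Graphs

/-! Trees on lists, simulations, ranks and bounded simulations. -/

set_option autoImplicit false

namespace Pool.Agent.P.MP_b28ae3_lc

open Classical Encodable

/-- A tree is given by the predicate telling which lists are present; the children of `ρ`
are the present lists `a :: ρ`. -/
abbrev Tr : Type := List ℕ → Prop

/-- the child relation -/
def Ch (A : Tr) (ν ρ : List ℕ) : Prop := ∃ a, ν = a :: ρ ∧ A ν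

/-- the part of `A` below `ρ` is simulated by the part of `B` below `θ` -/
def Sim (A B : Tr) (ρ θ : List ℕ) : Prop :=
  ∃ S : List ℕ → List ℕ → Prop, S ρ θ ∧
    ∀ ν μ a, S ν μ → A (a :: ν) → ∃ c, B (c :: μ) ∧ S (a :: ν) (c :: μ)

lemma Sim.step {A B : Tr} {ρ θ : List ℕ} (h : Sim A B ρ θ) {a : ℕ} (ha : A (a :: ρ)) :
    ∃ c, B (c :: θ) ∧ Sim A B (a :: ρ) (c :: θ) := by
  obtain ⟨S, h0, h1⟩ := h
  obtain ⟨c, hc, hs⟩ := h1 _ _ _ h0 ha
  exact ⟨c, hc, S, hs, h1⟩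

lemma Sim.of_step {A B : Tr} {ρ θ : List ℕ}
    (h : ∀ a, A (a :: ρ) → ∃ c, B (c :: θ) ∧ Sim A B (a :: ρ) (c :: θ)) : Sim A B ρ θ := by
  refine ⟨fun ν μ => (ν = ρ ∧ μ = θ) ∨ Sim A B ν μ, Or.inl ⟨rfl, rfl⟩, ?_⟩
  rintro ν μ a (⟨rfl, rfl⟩ | hs) ha
  · obtain ⟨c, hc, hs⟩ := h a ha
    exact ⟨c, hc, Or.inr hs⟩
  · obtain ⟨c, hc, hs⟩ := hs.step ha
    exact ⟨c, hc, Or.inr hs⟩

lemma Sim.up {A B : Tr} {ρ θ : List ℕ} {c : ℕ} (h : Sim A B ρ (c :: θ)) (hc : B (c :: θ)) :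
    Sim A B ρ θ := by
  refine ⟨fun ν μ => ∃ e, B (e :: μ) ∧ Sim A B ν (e :: μ), ⟨c, hc, h⟩, ?_⟩
  rintro ν μ a ⟨e, he, hs⟩ ha
  exact ⟨e, he, hs.step ha⟩

lemma sim_total {A B : Tr} {ρ θ : List ℕ} (h : ¬ Sim A B ρ θ) :
    ∃ a, A (a :: ρ) ∧ Sim B A θ (a :: ρ) := by
  have key : ∀ ρ θ, ¬ Sim A B ρ θ →
      ∃ a, A (a :: ρ) ∧ ∀ c, B (c :: θ) → ¬ Sim A B (a :: ρ) (c :: θ) := by
    intro ρ θ h
    by_contra hn
    refine h (Sim.of_step (fun a ha => ?_))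
    by_contra hc
    exact hn ⟨a, ha, fun c hc' hs => hc ⟨c, hc', hs⟩⟩
  obtain ⟨a, ha, hs⟩ := key ρ θ h
  refine ⟨a, ha, fun μ ν => ∀ c, B (c :: μ) → ¬ Sim A B ν (c :: μ), hs, ?_⟩
  intro μ ν c h1 hc
  exact key _ _ (h1 c hc)

lemma Sim.rank_le {A B : Tr} {θ : List ℕ} (hB : Acc (Ch B) θ) :
    ∀ ρ, Sim A B ρ θ → ∃ hA : Acc (Ch A) ρ, hA.rank ≤ hB.rank := by
  induction hB with
  | intro θ h ih =>
    intro ρ hs
    have key : ∀ ν, Ch A ν ρ → ∃ hA : Acc (Ch A) ν, hA.rank < (Acc.intro θ h).rank := by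
      rintro ν ⟨a, rfl, ha⟩
      obtain ⟨c, hc, hs'⟩ := hs.step ha
      have hch : Ch B (c :: θ) θ := ⟨c, rfl, hc⟩
      obtain ⟨hA, hr⟩ := ih _ hch _ hs'
      exact ⟨hA, lt_of_le_of_lt hr (Acc.rank_lt_of_rel (Acc.intro θ h) hch)⟩
    have hA : Acc (Ch A) ρ := Acc.intro ρ (fun ν hν => (key ν hν).1)
    refine ⟨hA, ?_⟩
    rw [hA.rank_eq]
    refine Ordinal.iSup_le (fun ν => ?_)
    exact Order.succ_le_of_lt (key ν.1 ν.2).2

lemma not_acc_step {A : Tr} {ρ : List ℕ} (h : ¬ Acc (Ch A) ρ) :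
    ∃ a, A (a :: ρ) ∧ ¬ Acc (Ch A) (a :: ρ) := by
  by_contra hn
  refine h (Acc.intro ρ ?_)
  rintro ν ⟨a, rfl, ha⟩
  by_contra hc
  exact hn ⟨a, ha, hc⟩

lemma sim_of_not_acc {A B : Tr} {ρ θ : List ℕ} (h : ¬ Acc (Ch B) θ) : Sim A B ρ θ :=
  ⟨fun _ μ => ¬ Acc (Ch B) μ, h, fun _ _ _ h _ => not_acc_step h⟩

/-- the node of length `L` on the branch `β` -/
def node (β : ℕ → ℕ) : ℕ → List ℕ
  | 0 => []
  | L + 1 => β L :: node β L

lemma not_acc_of_branch {A : Tr} {β : ℕ → ℕ} (h : ∀ L, A (node β (L + 1))) (L : ℕ) :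
    ¬ Acc (Ch A) (node β L) := by
  intro hA
  generalize hν : node β L = ν at hA
  induction hA generalizing L with
  | intro ν _ ih => exact ih (node β (L + 1)) ⟨β L, by rw [← hν]; rfl, h L⟩ (L + 1) rfl

lemma exists_branch {A : Tr} (h : ¬ Acc (Ch A) []) : ∃ β : ℕ → ℕ, ∀ L, A (node β (L + 1)) := by
  have key : ∀ ρ : List ℕ, ∃ a, ¬ Acc (Ch A) ρ → A (a :: ρ) ∧ ¬ Acc (Ch A) (a :: ρ) := by
    intro ρ
    by_cases hρ : Acc (Ch A) ρ
    · exact ⟨0, fun h => absurd hρ h⟩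
    · obtain ⟨a, ha⟩ := not_acc_step hρ
      exact ⟨a, fun _ => ha⟩
  choose g hg using key
  let T : ℕ → List ℕ := fun k => Nat.rec [] (fun _ t => g t :: t) k
  have e : ∀ k, node (fun k => g (T k)) k = T k := by
    intro k
    induction k with
    | zero => rfl
    | succ k ih => simp only [node, ih]; rfl
  have hT : ∀ k, ¬ Acc (Ch A) (T k) := by
    intro k
    induction k with
    | zero => exact h
    | succ k ih => exact (hg _ ih).2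
  exact ⟨fun k => g (T k), fun L => by rw [e]; exact (hg _ (hT L)).1⟩

lemma not_acc_true (ρ : List ℕ) : ¬ Acc (Ch (fun _ => True)) ρ := by
  intro h
  induction h with
  | intro ν _ ih => exact ih (0 :: ν) ⟨0, rfl, trivial⟩

lemma length_node (β : ℕ → ℕ) (L : ℕ) : (node β L).length = L := by
  induction L with
  | zero => rfl
  | succ L ih => simp [node, ih]

/-- the sequence read off a list, from the root, padded with zeros -/
def ext (τ : List ℕ) : ℕ → ℕ := fun j => τ.reverse.getD j 0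

lemma ext_node (β : ℕ → ℕ) (L j : ℕ) (h : j < L) : ext (node β L) j = β j := by
  induction L with
  | zero => omega
  | succ L ih =>
    unfold ext at ih ⊢
    simp only [node, List.reverse_cons]
    rcases Nat.lt_succ_iff_lt_or_eq.1 h with h | h
    · rw [List.getD_append _ _ _ _ (by simpa [length_node] using h)]
      exact ih h
    · rw [List.getD_append_right _ _ _ _ (by simp [length_node, h])]
      simp [length_node, h]

/-- bounded simulation, checked to depth `d` for source entries below `m` -/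
def LeF (A B : Tr) (b : List ℕ → ℕ) (m : ℕ) : ℕ → List ℕ → List ℕ → Prop
  | 0, _, _ => True
  | d + 1, ρ, θ => ∀ a, a < m → A (a :: ρ) →
      ∃ c, c ≤ b (a :: ρ) ∧ B (c :: θ) ∧ LeF A B b m d (a :: ρ) (c :: θ)

lemma LeF.mono {A A' B B' : Tr} {b b' : List ℕ → ℕ} {m m' : ℕ} (hA : ∀ ν, A' ν → A ν)
    (hB : ∀ ν, B ν → B' ν) (hb : ∀ ν, A' ν → b ν ≤ b' ν) (hm : m' ≤ m) :
    ∀ (d' d : ℕ) (ρ θ : List ℕ), d' ≤ d → LeF A B b m d ρ θ → LeF A' B' b' m' d' ρ θ := by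
  intro d'
  induction d' with
  | zero => intro _ _ _ _ _; trivial
  | succ d' ih =>
    intro d ρ θ hd h
    obtain ⟨d, rfl⟩ : ∃ e, d = e + 1 := ⟨d - 1, by omega⟩
    intro a ha hA'
    obtain ⟨c, h1, h2, h3⟩ := h a (by omega) (hA _ hA')
    exact ⟨c, h1.trans (hb _ hA'), hB _ h2, ih _ _ _ (by omega) h3⟩

lemma LeF.anti {A B : Tr} {b : List ℕ → ℕ} {m m' d d' : ℕ} {ρ θ : List ℕ}
    (h : LeF A B b m d ρ θ) (hm : m' ≤ m) (hd : d' ≤ d) : LeF A B b m' d' ρ θ :=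
  LeF.mono (fun _ h => h) (fun _ h => h) (fun _ _ => le_rfl) hm _ _ _ _ hd h

lemma LeF.dep (b : List ℕ → ℕ) (m d : ℕ) : ∀ ρ θ : List ℕ, ∃ N : ℕ,
    ∀ (A A' B B' : Tr) (b1 b2 : List ℕ → ℕ),
      (∀ ν, encode ν < N → (A' ν → A ν) ∧ (B ν → B' ν) ∧ b1 ν ≤ b ν ∧ b1 ν ≤ b2 ν) →
      LeF A B b1 m d ρ θ → LeF A' B' b2 m d ρ θ := by
  induction d with
  | zero => intro _ _; exact ⟨0, fun _ _ _ _ _ _ _ _ => trivial⟩
  | succ d ih =>
    choose f hf using ih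
    intro ρ θ
    refine ⟨(Finset.range m).sup (fun a => (Finset.range (b (a :: ρ) + 1)).sup
      (fun c => f (a :: ρ) (c :: θ) + encode (a :: ρ) + encode (c :: θ) + 1)), ?_⟩
    intro A A' B B' b1 b2 hN h a ha hA'
    have key : ∀ c, c ≤ b (a :: ρ) → ∀ ν : List ℕ,
        encode ν < f (a :: ρ) (c :: θ) + encode (a :: ρ) + encode (c :: θ) + 1 →
        (A' ν → A ν) ∧ (B ν → B' ν) ∧ b1 ν ≤ b ν ∧ b1 ν ≤ b2 ν := by
      intro c hc ν hν
      refine hN ν (lt_of_lt_of_le hν ?_)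
      refine le_trans ?_ (Finset.le_sup (f := fun a => (Finset.range (b (a :: ρ) + 1)).sup
        (fun c => f (a :: ρ) (c :: θ) + encode (a :: ρ) + encode (c :: θ) + 1))
        (Finset.mem_range.2 ha))
      exact Finset.le_sup
        (f := fun c => f (a :: ρ) (c :: θ) + encode (a :: ρ) + encode (c :: θ) + 1)
        (Finset.mem_range.2 (by omega))
    have h0 := key 0 (Nat.zero_le _) (a :: ρ) (by omega)
    obtain ⟨c, h1, h2, h3⟩ := h a ha (h0.1 hA')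
    have hc : c ≤ b (a :: ρ) := h1.trans h0.2.2.1
    refine ⟨c, h1.trans h0.2.2.2, (key c hc (c :: θ) (by omega)).2.1 h2, ?_⟩
    exact hf _ _ A A' B B' b1 b2 (fun ν hν => key c hc ν (by omega)) h3

/-- bounded simulation -/
def LeI (A B : Tr) (b : List ℕ → ℕ) (ρ θ : List ℕ) : Prop := ∀ m, LeF A B b m m ρ θ

lemma LeI.step {A B : Tr} {b : List ℕ → ℕ} {ρ θ : List ℕ} (h : LeI A B b ρ θ) {a : ℕ}
    (ha : A (a :: ρ)) : ∃ c, B (c :: θ) ∧ LeI A B b (a :: ρ) (c :: θ) := by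
  by_contra hn
  have key : ∀ c, ∃ m, ¬ (B (c :: θ) ∧ LeF A B b m m (a :: ρ) (c :: θ)) := by
    intro c
    by_contra hc
    push Not at hc
    exact hn ⟨c, (hc 0).1, fun m => (hc m).2⟩
  choose f hf using key
  obtain ⟨M, hM⟩ : ∃ M, ∀ c, c ≤ b (a :: ρ) → f c ≤ M :=
    ⟨(Finset.range (b (a :: ρ) + 1)).sup f,
      fun c hc => Finset.le_sup (f := f) (Finset.mem_range.2 (by omega))⟩
  obtain ⟨c, h1, h2, h3⟩ := h (M + a + 1) a (by omega) ha
  have := hM c h1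
  exact hf c ⟨h2, h3.anti (by omega) (by omega)⟩

lemma LeI.sim {A B : Tr} {b : List ℕ → ℕ} {ρ θ : List ℕ} (h : LeI A B b ρ θ) : Sim A B ρ θ :=
  ⟨LeI A B b, h, fun _ _ _ h ha => h.step ha⟩

/-- the bound read off `x` with offset `k` -/
def bk (x : ℕ → ℕ) (k : ℕ) : List ℕ → ℕ := fun ν => x (encode ν + k)

/-- simulation bounded by some shift of `x` -/
def LeX (A B : Tr) (x : ℕ → ℕ) (ρ θ : List ℕ) : Prop := ∃ k, LeI A B (bk x k) ρ θ

lemma LeX.step {A B : Tr} {x : ℕ → ℕ} {ρ θ : List ℕ} (h : LeX A B x ρ θ) {a : ℕ}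
    (ha : A (a :: ρ)) : ∃ c, B (c :: θ) ∧ LeX A B x (a :: ρ) (c :: θ) := by
  obtain ⟨k, h⟩ := h
  obtain ⟨c, h1, h2⟩ := h.step ha
  exact ⟨c, h1, k, h2⟩

lemma leX_sh {A B : Tr} {x : ℕ → ℕ} (hx : StrictMono x) : LeX A B (sh x) = LeX A B x := by
  funext ρ θ
  refine propext ⟨fun ⟨k, h⟩ => ⟨k + 1, h⟩, fun ⟨k, h⟩ => ⟨k, fun m => ?_⟩⟩
  refine LeF.mono (fun _ h => h) (fun _ h => h) (fun ν _ => ?_) le_rfl _ _ _ _ le_rfl (h m)
  exact hx.monotone (Nat.le_succ _)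

/-- the canonical map made of least choices, sending `ρ` to `θ` -/
noncomputable def Cm (Q : List ℕ → List ℕ → ℕ → Prop) (ρ θ : List ℕ) : List ℕ → List ℕ
  | [] => θ
  | a :: ν => if a :: ν = ρ then θ
      else sInf {c | Q (a :: ν) (Cm Q ρ θ ν) c} :: Cm Q ρ θ ν

/-- decoding of lists -/
def dec (n : ℕ) : List ℕ := (decode (α := List ℕ) n).getD []

lemma dec_encode (ν : List ℕ) : dec (encode ν) = ν := by simp [dec]

/-- the choices of the canonical map -/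
noncomputable def Cf (Q : List ℕ → List ℕ → ℕ → Prop) (ρ θ : List ℕ) (n : ℕ) : ℕ :=
  (Cm Q ρ θ (dec n)).headD 0

lemma leX_of_cf {A B : Tr} {Q : List ℕ → List ℕ → ℕ → Prop} {ρ θ : List ℕ}
    (I : List ℕ → List ℕ → Prop) (h0 : I ρ θ)
    (h1 : ∀ ν μ a, I ν μ → A (a :: ν) → ∃ c, Q (a :: ν) μ c)
    (h2 : ∀ ν μ c, Q ν μ c → B (c :: μ) ∧ I ν (c :: μ))
    {x : ℕ → ℕ} {k : ℕ} (hb : ∀ n, Cf Q ρ θ n ≤ x (n + k)) : LeI A B (bk x k) ρ θ := by
  intro m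
  have key : ∀ d ν, ρ.length ≤ ν.length → I ν (Cm Q ρ θ ν) →
      LeF A B (bk x k) m d ν (Cm Q ρ θ ν) := by
    intro d
    induction d with
    | zero => intro _ _ _; trivial
    | succ d ih =>
      intro ν hν hI a _ ha
      have hne : a :: ν ≠ ρ := fun h => by rw [← h] at hν; simp at hν
      have e : Cm Q ρ θ (a :: ν) = sInf {c | Q (a :: ν) (Cm Q ρ θ ν) c} :: Cm Q ρ θ ν := by
        rw [Cm, if_neg hne]
      have hq : Q (a :: ν) (Cm Q ρ θ ν) (sInf {c | Q (a :: ν) (Cm Q ρ θ ν) c}) :=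
        Nat.sInf_mem (s := {c | Q (a :: ν) (Cm Q ρ θ ν) c}) (h1 _ _ _ hI ha)
      refine ⟨_, ?_, (h2 _ _ _ hq).1, ?_⟩
      · have := hb (encode (a :: ν))
        rwa [Cf, dec_encode, e] at this
      · rw [← e]
        refine ih _ (by simp; omega) ?_
        rw [e]
        exact (h2 _ _ _ hq).2
  have e : Cm Q ρ θ ρ = θ := by
    cases ρ with
    | nil => rfl
    | cons a ν => rw [Cm, if_pos rfl]
  have := key m ρ le_rfl (by rw [e]; exact h0)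
  rwa [e] at this

end Pool.Agent.P.MP_b28ae3_lc
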