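import Mathlib
import Pool.Agent.P.MP_b28ae3_lc.Inf1

/-! Codes for Borel sets by pairs of trees, and the Galvin-Prikry step. -/

set_option autoImplicit false

namespace Pool.Agent.P.MP_b28ae3_lc

open Classical Encodable Filter Topology

/-- the vertex space -/
abbrev ZZ : Type := (ℕ → Bool) × (ℕ → ℕ)

/-- locally constant predicates -/
def LC {Y : Type} [TopologicalSpace Y] (Φ : Y → Prop) : Prop := ∀ y, ∀ᶠ t in 𝓝 y, (Φ t ↔ Φ y)

lemma LC.isOpen {Y : Type} [TopologicalSpace Y] {Φ : Y → Prop} (h : LC Φ) : IsOpen {y | Φ y} :=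
  isOpen_iff_mem_nhds.2 (fun y hy => (h y).mono (fun _ ht => ht.2 hy))

lemma LC.meas {Y : Type} [TopologicalSpace Y] [MeasurableSpace Y] [OpensMeasurableSpace Y]
    {Φ : Y → Prop} (h : LC Φ) : Measurable Φ :=
  measurableSet_setOfPred.1 h.isOpen.measurableSet

lemma ev_agree {α : Type} [TopologicalSpace α] [DiscreteTopology α] (s : ℕ → α) (N : ℕ) :
    ∀ᶠ t in 𝓝 s, ∀ i, i < N → t i = s i := by
  have : ∀ i ∈ Finset.range N, ∀ᶠ t in 𝓝 s, t i = s i := by
    intro i _
    have h := (continuous_apply (A := fun _ : ℕ => α) i).tendsto s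
    rw [nhds_discrete α, tendsto_pure] at h
    exact h
  exact ((Finset.eventually_all _).2 this).mono (fun t ht i hi => ht i (Finset.mem_range.2 hi))

lemma ev_codes {Y ι : Type} [Encodable ι] {l : Filter Y} {p : ι → Y → Prop}
    (h : ∀ ν, ∀ᶠ t in l, p ν t) (N : ℕ) : ∀ᶠ t in l, ∀ ν, encode ν < N → p ν t := by
  have hf : {ν : ι | encode ν < N}.Finite :=
    (Set.finite_lt_nat N).preimage (Encodable.encode_injective.injOn)
  exact (hf.eventually_all.2 (fun ν _ => h ν)).mono (fun t ht ν hν => ht ν hν)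

/-- the first `n` values -/
def pre {α : Type} (f : ℕ → α) (n : ℕ) : List α := (List.range n).map f

lemma pre_congr {α : Type} {f g : ℕ → α} {n : ℕ} (h : ∀ i, i < n → f i = g i) :
    pre f n = pre g n :=
  List.map_congr_left (fun i hi => h i (List.mem_range.1 hi))

lemma eq_of_pre {α : Type} {f g : ℕ → α} {n : ℕ} (h : pre f n = pre g n) (i : ℕ) (hi : i < n) :
    f i = g i :=
  List.map_inj_left.1 h i (List.mem_range.2 hi)

/-- the two trees attached to the point `z` by the code `s` -/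
def tr (s : ℕ → Bool) (e : Bool) (z : ZZ) : Tr :=
  fun ρ => s (encode (e, ρ, pre z.1 ρ.length, pre z.2 ρ.length)) = true

lemma eq_of_node {β w : ℕ → ℕ} {L : ℕ} (h : node β L = node w L) (i : ℕ) (hi : i < L) :
    β i = w i := by
  rw [← ext_node β L i hi, h, ext_node w L i hi]

lemma exists_tree {K : Set ZZ} (hK : MeasurableSet K) :
    ∃ t : List ℕ → List Bool → List ℕ → Prop, ∀ z : ZZ,
      z ∈ K ↔ ¬ Acc (Ch (fun ρ => t ρ (pre z.1 ρ.length) (pre z.2 ρ.length))) [] := by
  have : TopologicalSpace.IsCompletelyMetrizableSpace (ℕ → Bool) :=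
    TopologicalSpace.IsCompletelyMetrizableSpace.pi_countable
  have : PolishSpace (ℕ → Bool) := inferInstance
  have hA := hK.analyticSet
  rw [MeasureTheory.AnalyticSet] at hA
  rcases hA with rfl | ⟨f, hf, rfl⟩
  · refine ⟨fun _ _ _ => False, fun z => ⟨fun h => h.elim, fun h => (h ?_).elim⟩⟩
    exact Acc.intro _ (fun ν ⟨_, _, h⟩ => h.elim)
  · refine ⟨fun ρ u v => ∃ w, ρ = node w ρ.length ∧ u = pre (f w).1 ρ.length ∧
      v = pre (f w).2 ρ.length, fun z => ⟨?_, fun h => ?_⟩⟩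
    · rintro ⟨w, rfl⟩
      exact not_acc_of_branch (β := w) (fun L => ⟨w, by rw [length_node], rfl, rfl⟩) 0
    · obtain ⟨β, hβ⟩ := exists_branch h
      simp only [length_node] at hβ
      choose w h1 h2 h3 using hβ
      have hw : Tendsto w atTop (𝓝 β) := by
        refine tendsto_pi_nhds.2 (fun i => tendsto_const_nhds.congr' ?_)
        filter_upwards [eventually_ge_atTop i] with L hL
        exact eq_of_node (h1 L) i (by omega)
      have hz : Tendsto (fun L => f (w L)) atTop (𝓝 z) := by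
        refine (Prod.tendsto_iff _ _).2 ⟨tendsto_pi_nhds.2 (fun i => tendsto_const_nhds.congr' ?_),
          tendsto_pi_nhds.2 (fun i => tendsto_const_nhds.congr' ?_)⟩
        · filter_upwards [eventually_ge_atTop i] with L hL
          exact eq_of_pre (h2 L) i (by omega)
        · filter_upwards [eventually_ge_atTop i] with L hL
          exact eq_of_pre (h3 L) i (by omega)
      exact ⟨β, tendsto_nhds_unique ((hf.tendsto β).comp hw) hz⟩

/-- every Borel set has a code -/
lemma exists_code {K : Set ZZ} (hK : MeasurableSet K) : ∃ s : ℕ → Bool, ∀ z : ZZ,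
    (z ∈ K ↔ ¬ Acc (Ch (tr s true z)) []) ∧ (z ∉ K ↔ ¬ Acc (Ch (tr s false z)) []) := by
  obtain ⟨t1, h1⟩ := exists_tree hK
  obtain ⟨t0, h0⟩ := exists_tree hK.compl
  let p : Bool × List ℕ × List Bool × List ℕ → Prop := fun q =>
    if q.1 = true then t1 q.2.1 q.2.2.1 q.2.2.2 else t0 q.2.1 q.2.2.1 q.2.2.2
  let s : ℕ → Bool := fun n => decide (∃ q, encode q = n ∧ p q)
  have hs : ∀ q, s (encode q) = true ↔ p q := by
    intro q
    simp only [s, decide_eq_true_eq]
    exact ⟨fun ⟨q', e, h⟩ => by rwa [← Encodable.encode_injective e], fun h => ⟨q, rfl, h⟩⟩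
  refine ⟨s, fun z => ⟨?_, ?_⟩⟩
  · have : tr s true z = fun ρ => t1 ρ (pre z.1 ρ.length) (pre z.2 ρ.length) := by
      funext ρ; refine propext ((hs _).trans ?_); simp [p]
    rw [this]; exact h1 z
  · have : tr s false z = fun ρ => t0 ρ (pre z.1 ρ.length) (pre z.2 ρ.length) := by
      funext ρ; refine propext ((hs _).trans ?_); simp [p]
    rw [this]; exact h0 z

lemma analytic_sim {A B : (ℕ → ℕ) → Tr} (hA : ∀ ν, Measurable (fun y => A y ν))
    (hB : ∀ ν, Measurable (fun y => B y ν)) {C : (ℕ → ℕ) → ℕ → Prop}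
    (hC : ∀ a, Measurable (fun y => C y a)) (ρ : List ℕ) (θ : ℕ → List ℕ) :
    MeasureTheory.AnalyticSet {y | ∃ a, C y a ∧ Sim (A y) (B y) ρ (θ a)} := by
  let S : (ℕ → Bool) → List ℕ → List ℕ → Prop := fun w ν μ => w (encode (ν, μ)) = true
  have hS : ∀ ν μ, Measurable (fun p : (ℕ → ℕ) × (ℕ → Bool) => S p.2 ν μ) := fun ν μ =>
    (measurable_of_countable (fun b : Bool => b = true)).comp
      ((measurable_pi_apply _).comp measurable_snd)
  let E : Set ((ℕ → ℕ) × (ℕ → Bool)) := {p | ∃ a, C p.1 a ∧ S p.2 ρ (θ a) ∧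
    ∀ ν μ a, S p.2 ν μ → A p.1 (a :: ν) → ∃ c, B p.1 (c :: μ) ∧ S p.2 (a :: ν) (c :: μ)}
  have hE : MeasurableSet E := by
    refine measurableSet_setOfPred.2 (Measurable.exists (fun a =>
      ((hC a).comp measurable_fst).and ((hS _ _).and ?_)))
    refine Measurable.forall (fun ν => Measurable.forall (fun μ => Measurable.forall (fun a =>
      (hS _ _).imp (((hA _).comp measurable_fst).imp (Measurable.exists (fun c =>
        ((hB _).comp measurable_fst).and (hS _ _)))))))
  have := hE.analyticSet_image (f := Prod.fst) measurable_fst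
  convert this using 1
  ext y
  constructor
  · rintro ⟨a, hc, T, h0, h1⟩
    let w : ℕ → Bool := fun n => decide (∃ q : List ℕ × List ℕ, encode q = n ∧ T q.1 q.2)
    have hw : ∀ ν μ, S w ν μ ↔ T ν μ := by
      intro ν μ
      simp only [S, w, decide_eq_true_eq]
      exact ⟨fun ⟨q', e, h⟩ => by rwa [Encodable.encode_injective e] at h,
        fun h => ⟨(ν, μ), rfl, h⟩⟩
    refine ⟨(y, w), ⟨a, hc, (hw _ _).2 h0, fun ν μ a h ha => ?_⟩, rfl⟩
    obtain ⟨c, g1, g2⟩ := h1 ν μ a ((hw _ _).1 h) ha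
    exact ⟨c, g1, (hw _ _).2 g2⟩
  · rintro ⟨⟨y, w⟩, ⟨a, hc, h0, h1⟩, rfl⟩
    exact ⟨a, hc, S w, h0, h1⟩

/-- the shift by `j` -/
def shj (j : ℕ) (y : ℕ → ℕ) : ℕ → ℕ := fun k => y (k + j)

lemma sh_shj (j : ℕ) (y : ℕ → ℕ) : sh (shj j y) = shj (j + 1) y := by
  funext k
  simp only [sh, shj]
  congr 1
  omega

lemma Dec.all_shifts {s : ℕ → ℕ} {B : Set (ℕ → ℕ)} (h : Dec 0 s B) :
    ∃ y : ℕ → ℕ, StrictMono y ∧ ∀ j, shj j y ∈ B := by
  obtain ⟨σ, h1, h2⟩ := h
  obtain ⟨y, hy⟩ := exists_follow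
    (fun k t => (⋂ j ∈ Finset.range (k + 1), σ (k - j) (shj j t)) ∩ {n | t (k - 1) < n}) (by
      intro k t
      apply Ultrafilter.nonempty_of_mem (f := UU)
      refine Filter.inter_mem ((Filter.biInter_finset_mem _).2 (fun j _ => h1 _ _)) ?_
      apply Filter.hyperfilter_le_cofinite
      rw [Nat.cofinite_eq_atTop]
      exact Filter.eventually_gt_atTop _)
  refine ⟨y, strictMono_nat_of_lt_succ (fun k => ?_), fun j => ?_⟩
  · have := (hy (k + 1)).2
    simpa [trunc] using this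
  · refine h2 (shj j y) (fun i hi => absurd hi (by omega)) (fun k _ => ?_)
    have := Set.mem_iInter₂.1 (hy (k + j)).1 j (Finset.mem_range.2 (by omega))
    have e : shj j (trunc y (k + j)) = trunc (shj j y) k := by
      funext i; simp [shj, trunc]
    rw [e, Nat.add_sub_cancel] at this
    exact this

lemma sim_excl {A B : Tr} {a : ℕ} (h1 : Sim A B [] []) (ha : A [a]) (h2 : Sim B A [] [a])
    (h : Acc (Ch A) [] ∨ Acc (Ch B) []) : False := by
  have hA : Acc (Ch A) [] := h.elim id (fun hB => (Sim.rank_le hB _ h1).1)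
  have hch : Ch A [a] [] := ⟨a, rfl, ha⟩
  obtain ⟨hB, r1⟩ := Sim.rank_le (hA.inv hch) _ h2
  obtain ⟨hA', r2⟩ := Sim.rank_le hB _ h1
  exact absurd (lt_of_le_of_lt (r2.trans r1) (hA.rank_lt_of_rel hch)) (lt_irrefl _)

/-- Galvin-Prikry for the comparison of two Borel families of trees that are never both
ill-founded -/
lemma gp_sim {A B : (ℕ → ℕ) → Tr} (hA : ∀ ν, Measurable (fun y => A y ν))
    (hB : ∀ ν, Measurable (fun y => B y ν))
    (h : ∀ y, Acc (Ch (A y)) [] ∨ Acc (Ch (B y)) []) :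
    ∃ y, StrictMono y ∧ ((∀ j, Sim (A (shj j y)) (B (shj j y)) [] []) ∨
      (∀ j, Sim (B (shj j y)) (A (shj j y)) [] [])) := by
  have h1 := analytic_sim hA hB (C := fun _ _ => True) (fun _ => measurable_const) [] (fun _ => [])
  have h2 := analytic_sim hB hA (C := fun y a => A y [a]) (fun a => hA [a]) [] (fun a => [a])
  have e : {y | ∃ a, A y [a] ∧ Sim (B y) (A y) [] [a]} =
      {y | ∃ _ : ℕ, True ∧ Sim (A y) (B y) [] []}ᶜ := by
    ext y
    constructor
    · rintro ⟨a, ha, hs⟩ ⟨_, _, hs'⟩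
      exact sim_excl hs' ha hs (h y)
    · intro hn
      exact sim_total (fun hs => hn ⟨0, trivial, hs⟩)
  rcases dec_of_measurable (h1.measurableSet_of_compl (e ▸ h2)) 0 (fun _ => 0) with hd | hd
  · obtain ⟨y, hy, hj⟩ := hd.all_shifts
    exact ⟨y, hy, Or.inl (fun j => (hj j).elim (fun _ h => h.2))⟩
  · rw [← e] at hd
    obtain ⟨y, hy, hj⟩ := hd.all_shifts
    exact ⟨y, hy, Or.inr (fun j => (hj j).elim (fun _ h => h.2.up h.1))⟩

lemma meas_tr (s : ℕ → Bool) (e : Bool) (ν : List ℕ) :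
    Measurable (fun y : ℕ → ℕ => tr s e (s, y) ν) := by
  refine LC.meas (fun y => (ev_agree y ν.length).mono (fun t ht => ?_))
  simp only [tr, pre_congr ht]

lemma lc_tr (e : Bool) (y : ℕ → ℕ) (ν : List ℕ) : LC (fun s : ℕ → Bool => tr s e (s, y) ν) := by
  intro s
  filter_upwards [ev_agree s ν.length,
    ev_agree s (encode (e, ν, pre s ν.length, pre y ν.length) + 1)] with t h1 h2
  simp only [tr, pre_congr h1]
  rw [h2 _ (Nat.lt_succ_self _)]

lemma meas_leF {Y : Type} [MeasurableSpace Y] {A B : Y → Tr} {b : Y → List ℕ → ℕ}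
    (hA : ∀ ν, Measurable (fun y => A y ν)) (hB : ∀ ν, Measurable (fun y => B y ν))
    (hb : ∀ ν, Measurable (fun y => b y ν)) (m d : ℕ) :
    ∀ ρ θ, Measurable (fun y => LeF (A y) (B y) (b y) m d ρ θ) := by
  induction d with
  | zero => intro _ _; exact measurable_const
  | succ d ih =>
    intro ρ θ
    exact Measurable.forall (fun a => measurable_const.imp ((hA _).imp (Measurable.exists
      (fun c => ((measurable_of_countable (fun n : ℕ => c ≤ n)).comp (hb _)).and
        ((hB _).and (ih _ _))))))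

lemma meas_leX {Y : Type} [MeasurableSpace Y] {A B : Y → Tr} {x : Y → ℕ → ℕ}
    (hA : ∀ ν, Measurable (fun y => A y ν)) (hB : ∀ ν, Measurable (fun y => B y ν))
    (hx : Measurable x) (ρ θ : List ℕ) : Measurable (fun y => LeX (A y) (B y) (x y) ρ θ) :=
  Measurable.exists (fun _ => Measurable.forall (fun m =>
    meas_leF hA hB (fun _ => (measurable_pi_apply _).comp hx) m m ρ θ))

end Pool.Agent.P.MP_b28ae3_lc
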