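import Mathlib
import Pool.Agent.P.MP_b28ae3_lc.Inf2

/-! The two self-referential families of trees. -/

set_option autoImplicit false

namespace Pool.Agent.P.MP_b28ae3_lc

open Classical Encodable Filter Topology

/-- source tree of the `j`-th simulation in mode `m` -/
def Src (s : ℕ → Bool) (m : ℕ) (x : ℕ → ℕ) (j : ℕ) : Tr := fun ν =>
  if m = 0 then True else tr s (decide (m ≠ 1)) (s, shj j x) ν

/-- target tree of the `j`-th simulation in mode `m` -/
def Tgt (s : ℕ → Bool) (m : ℕ) (x : ℕ → ℕ) (j : ℕ) : Tr := fun ν =>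
  if m = 0 then tr s (decide (j = 0)) (s, x) ν else tr s (decide (m = 1)) (s, shj j x) ν

/-- the sequence coded by a branch -/
def xs (β : ℕ → ℕ) : ℕ → ℕ := fun j => β (Nat.pair 1 j)

/-- the simulations coded by a branch -/
def Sw (β : ℕ → ℕ) (j : ℕ) (ν μ : List ℕ) : Prop := β (Nat.pair 3 (encode (j, ν, μ))) = 0

/-- indices of the elementary checks -/
abbrev Ix : Type := ℕ × List ℕ × List ℕ × ℕ × ℕ

/-- one elementary check -/
def Ph (s : ℕ → Bool) (β : ℕ → ℕ) : Ix → Prop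
  | (j, ν, μ, a, c) => Sw β j [] [] ∧ (β 1 ≠ 0 → xs β j < xs β (j + 1)) ∧
      (β (Nat.pair 4 (encode (j, ν, μ, a))) = c → Sw β j ν μ → Src s (β 1) (xs β) j (a :: ν) →
        Tgt s (β 1) (xs β) j (c :: μ) ∧ Sw β j (a :: ν) (c :: μ))

/-- the check `ι` only reads the branch below `L` -/
def Det (ι : Ix) (L : ℕ) : Prop :=
  ∀ (s : ℕ → Bool) (β β' : ℕ → ℕ), (∀ i, i < L → β' i = β i) → (Ph s β' ι ↔ Ph s β ι)

lemma pair_le_pair (t : ℕ) {i j : ℕ} (h : i ≤ j) : Nat.pair t i ≤ Nat.pair t j := by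
  rcases h.eq_or_lt with rfl | h
  · exact le_rfl
  · exact (Nat.pair_lt_pair_right t h).le

lemma tr_congr (s : ℕ → Bool) (e : Bool) {x y : ℕ → ℕ} {ν : List ℕ}
    (h : ∀ i, i < ν.length → x i = y i) : tr s e (s, x) ν ↔ tr s e (s, y) ν := by
  simp only [tr, pre_congr h]

lemma exists_det (ι : Ix) : ∃ L, ∀ M, L ≤ M → Det ι M := by
  obtain ⟨j, ν, μ, a, c⟩ := ι
  refine ⟨Nat.pair 1 (j + ν.length + μ.length + 2) +
    Nat.pair 3 (encode (j, ([] : List ℕ), ([] : List ℕ))) + Nat.pair 3 (encode (j, ν, μ)) +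
    Nat.pair 3 (encode (j, a :: ν, c :: μ)) + Nat.pair 4 (encode (j, ν, μ, a)) + 2, ?_⟩
  intro M hM s β β' h
  have hx : ∀ i, i ≤ j + ν.length + μ.length + 2 → xs β' i = xs β i := by
    intro i hi
    have := pair_le_pair 1 hi
    exact h _ (by omega)
  have h1 : β' 1 = β 1 := h 1 (by omega)
  have h2 : Src s (β 1) (xs β') j (a :: ν) ↔ Src s (β 1) (xs β) j (a :: ν) := by
    unfold Src
    rw [tr_congr s _ (x := shj j (xs β')) (y := shj j (xs β))
      (fun i hi => hx _ (by simp at hi; omega))]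
  have h3 : Tgt s (β 1) (xs β') j (c :: μ) ↔ Tgt s (β 1) (xs β) j (c :: μ) := by
    unfold Tgt
    rw [tr_congr s _ (x := shj j (xs β')) (y := shj j (xs β))
      (fun i hi => hx _ (by simp at hi; omega)),
      tr_congr s _ (x := xs β') (y := xs β) (fun i hi => hx _ (by simp at hi; omega))]
  simp only [Ph, Sw]
  rw [h1, h2, h3, hx j (by omega), hx (j + 1) (by omega),
    h (Nat.pair 3 (encode (j, ([] : List ℕ), ([] : List ℕ)))) (by omega),
    h (Nat.pair 3 (encode (j, ν, μ))) (by omega),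
    h (Nat.pair 3 (encode (j, a :: ν, c :: μ))) (by omega),
    h (Nat.pair 4 (encode (j, ν, μ, a))) (by omega)]

lemma ev_ph (β : ℕ → ℕ) (ι : Ix) : LC (fun s : ℕ → Bool => Ph s β ι) := by
  obtain ⟨j, ν, μ, a, c⟩ := ι
  intro s
  filter_upwards [lc_tr (decide (β 1 ≠ 1)) (shj j (xs β)) (a :: ν) s,
    lc_tr (decide (j = 0)) (xs β) (c :: μ) s,
    lc_tr (decide (β 1 = 1)) (shj j (xs β)) (c :: μ) s] with t h1 h2 h3
  simp only [Ph, Src, Tgt, h1, h2, h3]

/-- starting node of the source: side `true` kills strict simulations -/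
def st0 (i : Bool) : List ℕ := if i = true then [] else [0]

/-- the truncated check that no tree of the other side has a bounded simulation -/
def Kill (O : List ℕ → Bool → (ℕ → Bool) → Prop) (τ : List ℕ) (i : Bool) (T : Tr) (k : ℕ) :
    Prop :=
  ∀ t, ¬ LeF (fun ν => Nat.pair 1 (encode ν + k) < τ.length ∧ O ν (!i) t) T
    (bk (xs (ext τ)) k) τ.length τ.length (st0 i) [0]

/-- the condition on a node, given the nodes of smaller code -/
def Step (τ : List ℕ) (O : List ℕ → Bool → (ℕ → Bool) → Prop) (i : Bool) (s : ℕ → Bool) : Prop :=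
  ext τ 0 = 0 ∧ (1 < τ.length →
    (∀ ι : Ix, encode ι < τ.length → Det ι τ.length → Ph s (ext τ) ι) ∧
    (ext τ 1 ≠ 0 → ∀ k, Nat.pair 2 k < τ.length → ext τ (Nat.pair 2 k) ≤ τ.length →
      Kill O τ i (fun ν => encode ν < encode τ → O ν i s) k))

/-- the two families of trees -/
noncomputable def Rr : List ℕ → Bool → (ℕ → Bool) → Prop :=
  (measure (fun τ : List ℕ => encode τ)).wf.fix
    (fun τ ih => Step τ (fun ν i s => ∃ h : encode ν < encode τ, ih ν h i s))

lemma Rr_eq (τ : List ℕ) : Rr τ = Step τ (fun ν i s => encode ν < encode τ ∧ Rr ν i s) := by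
  rw [Rr, WellFounded.fix_eq]
  congr 1
  funext ν i s
  exact propext exists_prop

/-- the tree of side `i` with parameter `s` -/
def RR (i : Bool) (s : ℕ → Bool) : Tr := fun ν => Rr ν i s

lemma lc_Rr (τ : List ℕ) (i : Bool) : LC (fun s => Rr τ i s) := by
  induction' hn : encode τ using Nat.strong_induction_on with n ih generalizing τ
  intro s
  have h1 : ∀ ν : List ℕ, ∀ᶠ t in 𝓝 s, encode ν < encode τ → (Rr ν i t ↔ Rr ν i s) := by
    intro ν
    by_cases hν : encode ν < encode τ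
    · exact (ih _ (hn ▸ hν) ν rfl s).mono (fun t ht _ => ht)
    · exact Eventually.of_forall (fun t h => absurd h hν)
  filter_upwards [ev_codes h1 (encode τ), ev_codes (fun ι => ev_ph (ext τ) ι s) τ.length]
    with t g1 g2
  rw [Rr_eq]
  have e : (fun ν : List ℕ => encode ν < encode τ → (encode ν < encode τ ∧ Rr ν i t)) =
      (fun ν : List ℕ => encode ν < encode τ → (encode ν < encode τ ∧ Rr ν i s)) := by
    funext ν
    exact propext (forall_congr' (fun h => and_congr_right (fun _ => g1 ν h h)))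
  unfold Step
  rw [e]
  refine and_congr_right (fun _ => forall_congr' (fun _ => and_congr_left (fun _ => ?_)))
  exact forall_congr' (fun ι => forall_congr' (fun h => by rw [g2 ι h]))

lemma RR_root (i : Bool) (s : ℕ → Bool) (a : ℕ) : RR i s [a] ↔ a = 0 := by
  unfold RR
  rw [Rr_eq]
  simp [Step, ext]

/-- `x` bounds no simulation from a tree of the other side -/
def InB (i : Bool) (s : ℕ → Bool) (x : ℕ → ℕ) : Prop :=
  ∀ k, ∃ n, ∀ t, ¬ LeF (RR (!i) t) (RR i s) (bk x k) n n (st0 i) [0]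

/-- the data carried by a branch -/
def Good (i : Bool) (s : ℕ → Bool) (m : ℕ) (x : ℕ → ℕ) : Prop :=
  (∀ j, Sim (Src s m x j) (Tgt s m x j) [] []) ∧ (m ≠ 0 → StrictMono x ∧ InB i s x)

lemma good_of_branch {i : Bool} {s : ℕ → Bool} (h : ¬ Acc (Ch (RR i s)) [0]) :
    ∃ m x, Good i s m x := by
  obtain ⟨β, hβ⟩ := exists_branch (A := RR i s)
    (fun hA => h (hA.inv ⟨0, rfl, (RR_root i s 0).2 rfl⟩))
  have hS : ∀ L, 1 < L → _ := fun L hL => by
    have := hβ (L - 1)
    rw [Nat.sub_add_cancel hL.le, RR, Rr_eq] at this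
    have := this.2 (by rwa [length_node])
    rw [length_node] at this
    exact this
  have hP : ∀ ι, Ph s β ι := by
    intro ι
    obtain ⟨L, hL⟩ := exists_det ι
    have hd := hL (L + encode ι + 2) (by omega)
    exact (hd s β _ (fun i hi => ext_node β _ i hi)).1
      ((hS (L + encode ι + 2) (by omega)).1 ι (by omega) hd)
  refine ⟨β 1, xs β, fun j => ⟨Sw β j, (hP (j, [], [], 0, 0)).1, fun ν μ a h1 h2 => ?_⟩,
    fun hm => ⟨strictMono_nat_of_lt_succ (fun j => (hP (j, [], [], 0, 0)).2.1 hm), fun k => ?_⟩⟩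
  · exact ⟨_, (hP (j, ν, μ, a, _)).2.2 rfl h1 h2⟩
  · set L := Nat.pair 2 k + β (Nat.pair 2 k) + 2 with hL
    have hK := (hS L (by omega)).2 (by rwa [ext_node β L 1 (by omega)]) k (by omega)
      (by rw [ext_node β L _ (by omega)]; omega)
    refine ⟨L, fun t hF => hK t ?_⟩
    rw [length_node]
    refine LeF.mono (fun ν h => h.2.2) (fun ν h hν => ⟨hν, h⟩) (fun ν h => ?_) le_rfl
      _ _ _ _ le_rfl hF
    exact (ext_node β L _ h.1).ge

lemma branch_of_good {i : Bool} {s : ℕ → Bool} {m : ℕ} {x : ℕ → ℕ} (h : Good i s m x) :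
    ¬ Acc (Ch (RR i s)) [0] := by
  obtain ⟨h1, h2⟩ := h
  choose S hS0 hS using h1
  have hF : ∀ q : ℕ × List ℕ × List ℕ × ℕ, ∃ c, S q.1 q.2.1 q.2.2.1 →
      Src s m x q.1 (q.2.2.2 :: q.2.1) →
      Tgt s m x q.1 (c :: q.2.2.1) ∧ S q.1 (q.2.2.2 :: q.2.1) (c :: q.2.2.1) := by
    rintro ⟨j, ν, μ, a⟩
    by_cases hc : S j ν μ ∧ Src s m x j (a :: ν)
    · obtain ⟨c, hc⟩ := hS j ν μ a hc.1 hc.2
      exact ⟨c, fun _ _ => hc⟩
    · exact ⟨0, fun g1 g2 => absurd ⟨g1, g2⟩ hc⟩
  choose F hF using hF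
  have hN : ∀ k, ∃ N, m ≠ 0 → ∀ (τ : List ℕ), N ≤ τ.length →
      (∀ j, Nat.pair 1 j < τ.length → xs (ext τ) j = x j) →
      Kill (fun ν i s => encode ν < encode τ ∧ Rr ν i s) τ i
        (fun ν => encode ν < encode τ → (encode ν < encode τ ∧ Rr ν i s)) k := by
    intro k
    by_cases hm : m = 0
    · exact ⟨0, fun h => absurd hm h⟩
    obtain ⟨n, hn⟩ := (h2 hm).2 k
    obtain ⟨N, hN⟩ := LeF.dep (bk x k) n n (st0 i) [0]
    refine ⟨n + N + Nat.pair 1 (N + k) + 1, fun _ τ hτ hx t hF => hn t ?_⟩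
    refine hN _ _ _ _ _ _ (fun ν hν => ?_) (hF.anti (by omega) (by omega))
    have g1 := pair_le_pair 1 (show encode ν + k ≤ N + k by omega)
    have g2 : τ.length ≤ encode τ := Encodable.length_le_encode τ
    have g3 : bk (xs (ext τ)) k ν = bk x k ν := hx _ (by omega)
    exact ⟨fun h => ⟨by omega, by omega, h⟩, fun h => (h (by omega)).2, g3.le, g3.le⟩
  choose N hN using hN
  let β : ℕ → ℕ := fun n =>
    if n.unpair.1 = 0 then (if n.unpair.2 = 0 then 0 else m)
    else if n.unpair.1 = 1 then x n.unpair.2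
    else if n.unpair.1 = 2 then N n.unpair.2
    else if n.unpair.1 = 3 then
      (if ∃ q : ℕ × List ℕ × List ℕ, encode q = n.unpair.2 ∧ S q.1 q.2.1 q.2.2 then 0 else 1)
    else ((decode (α := ℕ × List ℕ × List ℕ × ℕ) n.unpair.2).map F).getD 0
  have b0 : β 0 = 0 := by simp [β]
  have b1 : β 1 = m := by
    have : Nat.unpair 1 = (0, 1) := by decide
    simp [β, this]
  have bx : xs β = x := by funext j; simp [xs, β]
  have bN : ∀ k, β (Nat.pair 2 k) = N k := by intro k; simp [β]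
  have bS : ∀ j ν μ, Sw β j ν μ ↔ S j ν μ := by
    intro j ν μ
    have : (∃ q : ℕ × List ℕ × List ℕ, encode q = encode (j, ν, μ) ∧ S q.1 q.2.1 q.2.2) ↔
        S j ν μ :=
      ⟨fun ⟨q, e, h⟩ => by rwa [Encodable.encode_injective e] at h, fun h => ⟨(j, ν, μ), rfl, h⟩⟩
    simp only [Sw, β, Nat.unpair_pair, this]
    simp
  have bF : ∀ q : ℕ × List ℕ × List ℕ × ℕ, β (Nat.pair 4 (encode q)) = F q := by
    intro q
    simp only [β, Nat.unpair_pair, Encodable.encodek]
    simp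
  have hP : ∀ ι, Ph s β ι := by
    rintro ⟨j, ν, μ, a, c⟩
    simp only [Ph, bS, bF, b1, bx]
    refine ⟨hS0 j, fun hm => (h2 hm).1 (Nat.lt_succ_self j), ?_⟩
    rintro rfl
    exact hF (j, ν, μ, a)
  have hβ : ∀ L, RR i s (node β (L + 1)) := by
    intro L
    rw [RR, Rr_eq]
    refine ⟨by rw [ext_node β _ 0 (by omega), b0], fun hL => ?_⟩
    rw [length_node] at hL ⊢
    refine ⟨fun ι _ hd => (hd s β _ (fun i hi => ext_node β _ i hi)).2 (hP ι), ?_⟩
    intro hm k hk hk'
    rw [ext_node β _ 1 hL, b1] at hm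
    rw [ext_node β _ _ hk, bN] at hk'
    refine hN k hm _ (by rwa [length_node]) (fun j hj => ?_)
    rw [length_node] at hj
    rw [← bx]
    exact ext_node β _ _ hj
  have := not_acc_of_branch hβ 1
  simpa [node, b0] using this

lemma inB_of_not {i : Bool} {s : ℕ → Bool}
    (h : ∀ t, ¬ Sim (RR (!i) t) (RR i s) (st0 i) [0]) (x : ℕ → ℕ) : InB i s x := by
  intro k
  let U : ℕ → Set (ℕ → Bool) := fun n => {t | ¬ LeF (RR (!i) t) (RR i s) (bk x k) n n (st0 i) [0]}
  have hU : ∀ n, IsOpen (U n) := by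
    intro n
    refine isOpen_iff_mem_nhds.2 (fun t ht => ?_)
    obtain ⟨N, hN⟩ := LeF.dep (bk x k) n n (st0 i) [0]
    filter_upwards [ev_codes (fun ν => lc_Rr ν (!i) t) N] with t' ht' hF
    exact ht (hN _ _ _ _ _ _ (fun ν hν => ⟨(ht' ν hν).2, id, le_rfl, le_rfl⟩) hF)
  have hc : (Set.univ : Set (ℕ → Bool)) ⊆ ⋃ n, U n := by
    intro t _
    by_contra hn
    refine h t (LeI.sim (b := bk x k) (fun n => ?_))
    by_contra hF
    exact hn (Set.mem_iUnion.2 ⟨n, hF⟩)
  obtain ⟨n, hn⟩ := isCompact_univ.elim_directed_cover U hU hc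
    (Monotone.directed_le (fun a b hab t ht hF => ht (hF.anti hab hab)))
  exact ⟨n, fun t => hn (Set.mem_univ t)⟩

lemma not_acc_of_inB {i : Bool} {s : ℕ → Bool} (h : ∀ x, InB i s x) :
    ¬ Acc (Ch (RR i s)) [0] := by
  by_cases h0 : ∀ y, Acc (Ch (tr s false (s, y))) [] ∨ Acc (Ch (tr s true (s, y))) []
  · obtain ⟨y, hy, hj | hj⟩ := gp_sim (meas_tr s false) (meas_tr s true) h0
    · exact branch_of_good (m := 1) (x := y) ⟨hj, fun _ => ⟨hy, h y⟩⟩
    · exact branch_of_good (m := 2) (x := y) ⟨hj, fun _ => ⟨hy, h y⟩⟩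
  · push Not at h0
    obtain ⟨y, g0, g1⟩ := h0
    refine branch_of_good (m := 0) (x := y) ⟨fun j => sim_of_not_acc ?_, fun h => absurd rfl h⟩
    rcases Nat.eq_zero_or_pos j with rfl | hj
    · exact g1
    · have : Tgt s 0 y j = tr s false (s, y) := by
        funext ν; simp [Tgt, hj.ne']
      rwa [this]

/-- the Rosser step: all the trees are ill-founded -/
theorem not_acc_RR (i : Bool) (s : ℕ → Bool) : ¬ Acc (Ch (RR i s)) [0] := by
  intro hA
  obtain ⟨r, ⟨i0, s0, h0, rfl⟩, hmin⟩ := Ordinal.lt_wf.has_min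
    {r | ∃ (i : Bool) (s : ℕ → Bool) (h : Acc (Ch (RR i s)) [0]), h.rank = r} ⟨_, i, s, hA, rfl⟩
  have key : ∀ (s : ℕ → Bool) (h : Acc (Ch (RR true s)) [0]), ¬ h.rank ≤ h0.rank := by
    intro s h hr
    refine not_acc_of_inB (inB_of_not (fun t hs => ?_)) h
    obtain ⟨hB, hb⟩ := Sim.rank_le h _ hs
    have hch : Ch (RR false t) [0] [] := ⟨0, rfl, (RR_root _ _ 0).2 rfl⟩
    exact hmin _ ⟨false, t, hB.inv hch, rfl⟩
      (lt_of_lt_of_le (Acc.rank_lt_of_rel hB hch) (hb.trans hr))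
  cases i0 with
  | true => exact key s0 h0 le_rfl
  | false =>
    refine not_acc_of_inB (inB_of_not (fun t hs => ?_)) h0
    obtain ⟨hB, hb⟩ := Sim.rank_le h0 _ hs
    exact key t hB hb

lemma InB.sh {i : Bool} {s : ℕ → Bool} {x : ℕ → ℕ} (h : InB i s x) : InB i s (sh x) :=
  fun k => h (k + 1)

lemma meas_inB (i : Bool) : Measurable (fun z : ZZ => InB i z.1 z.2) := by
  refine Measurable.forall (fun k => Measurable.exists (fun n => LC.meas ?_))
  rintro ⟨s, x⟩
  obtain ⟨N, hN⟩ := LeF.dep (bk x k) n n (st0 i) [0]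
  have h1 := (continuous_fst.tendsto (s, x)).eventually (ev_codes (fun ν => lc_Rr ν i s) N)
  have h2 := (continuous_snd.tendsto (s, x)).eventually (ev_agree x (N + k))
  filter_upwards [h1, h2] with z g1 g2
  have g3 : ∀ ν : List ℕ, encode ν < N → bk z.2 k ν = bk x k ν := fun ν hν => g2 _ (by omega)
  refine forall_congr' (fun t => not_congr ⟨fun hF => ?_, fun hF => ?_⟩)
  · exact hN _ _ _ _ _ _ (fun ν hν => ⟨id, (g1 ν hν).1, (g3 ν hν).le, (g3 ν hν).le⟩) hF
  · exact hN _ _ _ _ _ _ (fun ν hν => ⟨id, (g1 ν hν).2, le_rfl, (g3 ν hν).ge⟩) hF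

/-- no Borel colouring with finitely many colours -/
theorem no_finite (i : Bool) (n : ℕ) (c : ZZ → ℕ) (hc : Measurable c) (hn : ∀ z, c z < n)
    (hp : ∀ s x, StrictMono x → InB i s x → c (s, x) ≠ c (s, sh x)) : False := by
  have hK : MeasurableSet {z : ZZ | c z < c (z.1, sh z.2)} :=
    measurableSet_lt hc (hc.comp (measurable_fst.prodMk (meas_sh.comp measurable_snd)))
  obtain ⟨s, hs⟩ := exists_code hK
  obtain ⟨m, x, h1, h2⟩ := good_of_branch (not_acc_RR i s)
  by_cases hm : m = 0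
  · subst hm
    have g : ∀ j, ¬ Acc (Ch (tr s (decide (j = 0)) (s, x))) [] := fun j hA =>
      not_acc_true [] (Sim.rank_le hA _ (h1 j)).1
    exact (hs (s, x)).2.2 (g 1) ((hs (s, x)).1.2 (g 0))
  have g : ∀ j, Acc (Ch (tr s (decide (m = 1)) (s, shj j x))) [] →
      Acc (Ch (tr s (decide (m ≠ 1)) (s, shj j x))) [] := by
    intro j hA
    have e1 : Src s m x j = tr s (decide (m ≠ 1)) (s, shj j x) := by
      funext ν; rw [Src, if_neg hm]
    have e2 : Tgt s m x j = tr s (decide (m = 1)) (s, shj j x) := by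
      funext ν; rw [Tgt, if_neg hm]
    have := h1 j
    rw [e1, e2] at this
    exact (Sim.rank_le hA _ this).1
  by_cases hm1 : m = 1
  · subst hm1
    have up : ∀ j, c (s, shj j x) < c (s, shj (j + 1) x) := by
      intro j
      rw [← sh_shj]
      by_contra hj
      exact (hs (s, shj j x)).2.1 hj (g j (not_not.1 (fun h => hj ((hs (s, shj j x)).1.2 h))))
    have := (strictMono_nat_of_lt_succ up).le_apply (x := n)
    exact absurd (hn (s, shj n x)) (by omega)
  · have hB : ∀ j, StrictMono (shj j x) ∧ InB i s (shj j x) := by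
      intro j
      induction j with
      | zero => exact h2 hm
      | succ j ih => rw [← sh_shj]; exact ⟨strictMono_sh ih.1, ih.2.sh⟩
    have down : ∀ j, c (s, shj (j + 1) x) < c (s, shj j x) := by
      intro j
      rw [← sh_shj]
      have g1 := hp s _ (hB j).1 (hB j).2
      have g2 : ¬ c (s, shj j x) < c (s, sh (shj j x)) := by
        intro hj
        have g3 := g j
        simp only [hm1, decide_false, ne_eq, not_false_eq_true, decide_true] at g3
        exact (hs (s, shj j x)).1.1 hj (g3 (not_not.1 (fun h => (hs (s, shj j x)).2.2 h hj)))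
      omega
    have : ∀ j, c (s, shj j x) + j ≤ c (s, shj 0 x) := by
      intro j
      induction j with
      | zero => exact le_rfl
      | succ j ih => have := down j; omega
    have := this (c (s, shj 0 x) + 1)
    omega

end Pool.Agent.P.MP_b28ae3_lc
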