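import Pool.Agent.P.MP_b28ae3_lc.Graphs

/-! From two Borel graphs without finite Borel colouring whose product is Borel 3-colourable to
all triples of chromatic numbers. -/

set_option autoImplicit false

namespace Pool.Agent.P.MP_b28ae3_lc

open Classical

/-- A Borel colouring of the relation `R` with natural numbers below `m`. -/
def BCol {X : Type} [MeasurableSpace X] (R : X → X → Prop) (m : ℕ∞) : Prop :=
  ∃ c : X → ℕ, Measurable c ∧ (∀ x, (c x : ℕ∞) < m) ∧ ∀ x y, R x y → c x ≠ c y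

/-- The product of `G` with a clique of size `a`, together with a clique of size `n` over `p0`. -/
def blow {X : Type} (G : SimpleGraph X) (p0 : X) (a : ℕ∞) (n : ℕ) : SimpleGraph (X × ℕ) where
  Adj p q := p.2 ≠ q.2 ∧ ((G.Adj p.1 q.1 ∧ (p.2 : ℕ∞) < a ∧ (q.2 : ℕ∞) < a) ∨
    (p.1 = p0 ∧ q.1 = p0 ∧ p.2 < n ∧ q.2 < n))
  symm := ⟨fun _ _ h => ⟨h.1.symm, h.2.imp (fun k => ⟨k.1.symm, k.2.2, k.2.1⟩)
    fun k => ⟨k.2.1, k.1, k.2.2.2, k.2.2.1⟩⟩⟩
  loopless := ⟨fun _ h => h.1 rfl⟩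

section
variable {X : Type} [MeasurableSpace X]

lemma meas_blow [MeasurableSingletonClass X] {G : SimpleGraph X}
    (hG : MeasurableSet {p : X × X | G.Adj p.1 p.2}) (p0 : X) (a : ℕ∞) (n : ℕ) :
    MeasurableSet {z : (X × ℕ) × (X × ℕ) | (blow G p0 a n).Adj z.1 z.2} := by
  have h0 : Measurable fun x : X => x = p0 :=
    measurableSet_setOfPred.1 (measurableSet_singleton p0)
  have h1 : ∀ P : ℕ × ℕ → Prop, Measurable fun z : (X × ℕ) × (X × ℕ) => P (z.1.2, z.2.2) :=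
    fun P => (measurable_of_countable P).comp (measurable_fst.snd.prodMk measurable_snd.snd)
  exact measurableSet_setOfPred.2 ((h1 fun w => w.1 ≠ w.2).and
    ((((measurableSet_setOfPred.1 hG).comp (measurable_fst.fst.prodMk measurable_snd.fst)).and
      (h1 fun w => (w.1 : ℕ∞) < a ∧ (w.2 : ℕ∞) < a)).or
    ((h0.comp measurable_fst.fst).and ((h0.comp measurable_snd.fst).and
      (h1 fun w => w.1 < n ∧ w.2 < n)))))

lemma bcol_blow {G : SimpleGraph X} (h0 : ∀ m : ℕ, ¬ BCol G.Adj m) (p0 : X) {a : ℕ∞} {n : ℕ}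
    (hn : 0 < n) (ha : (n : ℕ∞) ≤ a) (m : ℕ∞) : BCol (blow G p0 a n).Adj m ↔ a ≤ m := by
  constructor
  · rintro ⟨c, c1, c2, c3⟩
    by_contra hm
    rw [not_le] at hm
    lift m to ℕ using hm.ne_top
    have c2' : ∀ x, c x < m := fun x => by exact_mod_cast c2 x
    let e := Fintype.equivFin (Fin (m + 1) → Fin m)
    let φ : (Fin (m + 1) → ℕ) → ℕ := fun g =>
      if h : ∀ i, g i < m then (e fun i => ⟨g i, h i⟩ : ℕ) else 0
    have hφ : ∀ x : X, φ (fun i => c (x, i)) = e fun i => ⟨c (x, i), c2' _⟩ := fun x =>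
      dif_pos fun _ => c2' _
    refine h0 (Fintype.card (Fin (m + 1) → Fin m)) ⟨fun x => φ fun i => c (x, i),
      (measurable_of_countable φ).comp (measurable_pi_lambda _ fun i =>
        c1.comp (measurable_id.prodMk measurable_const)), fun x => ?_, fun x y h h' => ?_⟩
    · simp only [hφ]
      exact Nat.cast_lt.2 (e _).2
    · simp only [hφ] at h'
      have h2 := e.injective (Fin.ext h')
      have hl : ∀ i : Fin (m + 1), ((i : ℕ) : ℕ∞) < a := fun i =>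
        lt_of_le_of_lt (by exact_mod_cast Nat.lt_succ_iff.1 i.2) hm
      obtain ⟨i, j, hij, h3⟩ := Fintype.exists_ne_map_eq_of_card_lt
        (fun i : Fin (m + 1) => (⟨c (x, i), c2' _⟩ : Fin m)) (by simp)
      exact c3 (x, i) (y, j) ⟨fun k => hij (Fin.ext k), Or.inl ⟨h, hl i, hl j⟩⟩
        (congrArg Fin.val (h3.trans (congrFun h2 j)))
  · intro hm
    have hl : ∀ i : ℕ, i < n → (i : ℕ∞) < a := fun i hi =>
      lt_of_lt_of_le (by exact_mod_cast hi) ha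
    refine ⟨fun p => if (p.2 : ℕ∞) < a then p.2 else 0,
      (measurable_of_countable fun i : ℕ => if (i : ℕ∞) < a then i else 0).comp measurable_snd,
      fun p => lt_of_lt_of_le ?_ hm, fun p q h => ?_⟩
    · dsimp only
      split_ifs with h
      exacts [h, hl 0 hn]
    · have h2 : (p.2 : ℕ∞) < a ∧ (q.2 : ℕ∞) < a :=
        h.2.elim (fun k => k.2) fun k => ⟨hl _ k.2.2.1, hl _ k.2.2.2⟩
      simp only [if_pos h2.1, if_pos h2.2]
      exact h.1

lemma bcol_prod [MeasurableSingletonClass X] {G G' : SimpleGraph X} {p0 : X}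
    (i0 : ∀ q, ¬ G.Adj p0 q) (i1 : ∀ q, ¬ G'.Adj p0 q)
    (h3 : BCol (fun p q : X × X => G.Adj p.1 q.1 ∧ G'.Adj p.2 q.2) 3) {n : ℕ} (hn : 3 ≤ n)
    (a b m : ℕ∞) :
    BCol (fun p q : (X × ℕ) × (X × ℕ) => (blow G p0 a n).Adj p.1 q.1 ∧
      (blow G' p0 b n).Adj p.2 q.2) m ↔ (n : ℕ∞) ≤ m := by
  constructor
  · rintro ⟨c, -, c2, c3⟩
    by_contra hm
    rw [not_le] at hm
    lift m to ℕ using hm.ne_top
    have c2' : ∀ x, c x < m := fun x => by exact_mod_cast c2 x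
    obtain ⟨i, j, hij, h⟩ := Fintype.exists_ne_map_eq_of_card_lt
      (fun i : Fin n => (⟨c ((p0, i), (p0, i)), c2' _⟩ : Fin m)) (by simpa using hm)
    have hij' : (i : ℕ) ≠ j := fun k => hij (Fin.ext k)
    exact c3 ((p0, i), (p0, i)) ((p0, j), (p0, j)) ⟨⟨hij', Or.inr ⟨rfl, rfl, i.2, j.2⟩⟩,
      hij', Or.inr ⟨rfl, rfl, i.2, j.2⟩⟩ (congrArg Fin.val h)
  · intro hm
    obtain ⟨c, c1, c2, c3⟩ := h3
    have h0 : MeasurableSet {x : X | x = p0} := measurableSet_singleton p0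
    have ht : Measurable fun i : ℕ => if i < n then i else 0 := measurable_of_countable _
    refine ⟨fun p => if p.1.1 = p0 then (if p.1.2 < n then p.1.2 else 0) else
      if p.2.1 = p0 then (if p.2.2 < n then p.2.2 else 0) else c (p.1.1, p.2.1),
      Measurable.ite (measurable_fst.fst h0) (ht.comp measurable_fst.snd)
        (Measurable.ite (measurable_snd.fst h0) (ht.comp measurable_snd.snd)
          (c1.comp (measurable_fst.fst.prodMk measurable_snd.fst))),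
      fun p => lt_of_lt_of_le (Nat.cast_lt.2 ?_) hm, fun p q h => ?_⟩
    · have : c (p.1.1, p.2.1) < 3 := by exact_mod_cast c2 (p.1.1, p.2.1)
      dsimp only
      split_ifs <;> omega
    · obtain ⟨⟨h1, h2 | h2⟩, h4, h5⟩ := h
      · have e1 : p.1.1 ≠ p0 := fun k => i0 _ (k ▸ h2.1)
        have e2 : q.1.1 ≠ p0 := fun k => i0 _ (k ▸ h2.1.symm)
        simp only [if_neg e1, if_neg e2]
        rcases h5 with h5 | h5
        · have e3 : p.2.1 ≠ p0 := fun k => i1 _ (k ▸ h5.1)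
          have e4 : q.2.1 ≠ p0 := fun k => i1 _ (k ▸ h5.1.symm)
          simp only [if_neg e3, if_neg e4]
          exact c3 _ _ ⟨h2.1, h5.1⟩
        · simp only [if_pos h5.1, if_pos h5.2.1, if_pos h5.2.2.1, if_pos h5.2.2.2]
          exact h4
      · simp only [if_pos h2.1, if_pos h2.2.1, if_pos h2.2.2.1, if_pos h2.2.2.2]
        exact h1

end

theorem final {X : Type} [MeasurableSpace X] [StandardBorelSpace X] (G G' : SimpleGraph X)
    (hG : MeasurableSet {p : X × X | G.Adj p.1 p.2})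
    (hG' : MeasurableSet {p : X × X | G'.Adj p.1 p.2}) (p0 : X) (i0 : ∀ q, ¬ G.Adj p0 q)
    (i1 : ∀ q, ¬ G'.Adj p0 q) (h0 : ∀ m : ℕ, ¬ BCol G.Adj m) (h1 : ∀ m : ℕ, ¬ BCol G'.Adj m)
    (h3 : BCol (fun p q : X × X => G.Adj p.1 q.1 ∧ G'.Adj p.2 q.2) 3) (n : ℕ) (hn : 3 ≤ n)
    (a b : ℕ∞) (ha : (n : ℕ∞) ≤ a) (hb : (n : ℕ∞) ≤ b) :
    ∃ H H' : SimpleGraph (X × ℕ),
      MeasurableSet {z : (X × ℕ) × (X × ℕ) | H.Adj z.1 z.2} ∧
      MeasurableSet {z : (X × ℕ) × (X × ℕ) | H'.Adj z.1 z.2} ∧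
      (∀ m, BCol H.Adj m ↔ a ≤ m) ∧ (∀ m, BCol H'.Adj m ↔ b ≤ m) ∧
      ∀ m, BCol (fun p q : (X × ℕ) × (X × ℕ) => H.Adj p.1 q.1 ∧ H'.Adj p.2 q.2) m ↔
        (n : ℕ∞) ≤ m :=
  ⟨blow G p0 a n, blow G' p0 b n, meas_blow hG p0 a n, meas_blow hG' p0 b n,
    bcol_blow h0 p0 (by omega) ha, bcol_blow h1 p0 (by omega) hb, bcol_prod i0 i1 h3 hn a b⟩

end Pool.Agent.P.MP_b28ae3_lc
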