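import Pool.Agent.P.MP_b28ae3_lc.Graphs

/-! A Borel 3-colouring of the shift on the sequences whose shifts do not dominate `F`. -/

set_option autoImplicit false

namespace Pool.Agent.P.MP_b28ae3_lc

open Classical

/-- colouring by the parity of the distance to the first marker -/
noncomputable def gcol (M : ℕ → Prop) : ℕ :=
  if M 0 then 2 else if ∃ m, m % 2 = 1 ∧ M m ∧ ∀ k, k < m → ¬ M k then 1 else 0

lemma gcol_lt (M : ℕ → Prop) : gcol M < 3 := by
  unfold gcol; split_ifs <;> omega

lemma gcol_first {M : ℕ → Prop} {m : ℕ} (h1 : M m) (h2 : ∀ k, k < m → ¬ M k) :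
    gcol M = if m = 0 then 2 else m % 2 := by
  have h : (∃ m', m' % 2 = 1 ∧ M m' ∧ ∀ k, k < m' → ¬ M k) ↔ m % 2 = 1 := by
    refine ⟨?_, fun h => ⟨m, h, h1, h2⟩⟩
    rintro ⟨m', a, c, d⟩
    rcases lt_trichotomy m m' with h | h | h
    exacts [absurd h1 (d m h), h ▸ a, absurd c (h2 m' h)]
  unfold gcol
  rw [h]
  by_cases h0 : m = 0
  · rw [if_pos (h0 ▸ h1), if_pos h0]
  · rw [if_neg (h2 0 (by omega)), if_neg h0]
    split_ifs <;> omega

lemma gcol_ne {M : ℕ → Prop} (h1 : ∃ m, M (m + 1)) (h2 : M 0 → ¬ M 1) :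
    gcol M ≠ gcol fun k => M (k + 1) := by
  have m1 := Nat.find_spec h1
  have m2 : ∀ k, k < Nat.find h1 → ¬ M (k + 1) := fun k hk => Nat.find_min h1 hk
  generalize Nat.find h1 = m at m1 m2
  rw [gcol_first (M := fun k => M (k + 1)) m1 m2]
  by_cases h0 : M 0
  · have : m ≠ 0 := fun h => h2 h0 (by simpa [h] using m1)
    rw [gcol_first h0 (by simp), if_pos rfl, if_neg this]
    omega
  · rw [gcol_first m1 (fun k hk => by
      rcases k with _ | k
      exacts [h0, m2 k (by omega)]), if_neg (by omega)]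
    split_ifs <;> omega

lemma meas_gcol {Y : Type} [MeasurableSpace Y] {M : Y → ℕ → Prop}
    (h : ∀ k, Measurable fun y => M y k) : Measurable fun y => gcol (M y) := by
  unfold gcol
  refine Measurable.ite (measurableSet_setOfPred.2 (h 0)) measurable_const ?_
  refine Measurable.ite (measurableSet_setOfPred.2 ?_) measurable_const measurable_const
  exact Measurable.exists fun m => measurable_const.and ((h m).and
    (Measurable.forall fun k => Measurable.forall fun _ => (h k).not))

/-- a sparse sequence along which `F` is dominated in one step -/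
def spa (F : ℕ → ℕ) : ℕ → ℕ
  | 0 => 0
  | i + 1 => ∑ l ∈ Finset.range (spa F i + 1), F l + (spa F i + 1)

lemma spa_mono (F : ℕ → ℕ) : StrictMono (spa F) :=
  strictMono_nat_of_lt_succ fun i => by rw [spa]; omega

lemma le_spa (F : ℕ → ℕ) {i l : ℕ} (h : l ≤ spa F i) : F l ≤ spa F (i + 1) := by
  have := Finset.single_le_sum (f := F) (fun _ _ => Nat.zero_le _)
    (Finset.mem_range.2 (Nat.lt_succ_of_le h))
  rw [spa]
  exact this.trans (Nat.le_add_right _ _)

lemma meas_spa : Measurable spa := by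
  refine measurable_pi_lambda _ fun i => ?_
  induction i with
  | zero => exact measurable_const
  | succ i ih =>
    exact meas_dep (fun m (F : ℕ → ℕ) => ∑ l ∈ Finset.range (m + 1), F l + (m + 1))
      (fun m => (Finset.measurable_sum _ fun l _ => measurable_pi_apply l).add_const _) _ ih

/-- the symbol at place `j` -/
def sym (u : ℕ → ℕ) (j : ℕ) : ℕ := if u j + 2 ≤ u (j + 1) then 2 else u j % 2

/-- an ascent which is not followed by an ascent -/
def Asc (u : ℕ → ℕ) (j : ℕ) : Prop := sym u j < sym u (j + 1) ∧ ¬ sym u (j + 1) < sym u (j + 2)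

lemma sym_le (u : ℕ → ℕ) (j : ℕ) : sym u j ≤ 2 := by
  unfold sym; split_ifs <;> omega

lemma meas_sym (j : ℕ) : Measurable fun u => sym u j := by
  have h : Measurable fun u : ℕ → ℕ => (u j, u (j + 1)) :=
    (measurable_pi_apply j).prodMk (measurable_pi_apply (j + 1))
  exact (measurable_of_countable fun p : ℕ × ℕ => if p.1 + 2 ≤ p.2 then 2 else p.1 % 2).comp h

lemma meas_asc (j : ℕ) : Measurable fun u => Asc u j :=
  (measurable_of_countable fun p : ℕ × ℕ × ℕ => p.1 < p.2.1 ∧ ¬ p.2.1 < p.2.2).comp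
    ((meas_sym j).prodMk ((meas_sym (j + 1)).prodMk (meas_sym (j + 2))))

lemma exists_asc {u : ℕ → ℕ} (h : ∀ K, ∃ j, K ≤ j ∧ sym u j ≠ sym u K) : ∃ m, Asc u (m + 1) := by
  have h1 : ∃ j, sym u (j + 1) < sym u (j + 1 + 1) := by
    by_contra hn
    have h2 : Antitone fun j => sym u (j + 1) :=
      antitone_nat_of_succ_le fun j => not_lt.1 fun k => hn ⟨j, k⟩
    have h3 : ∀ K, ∃ j, sym u (j + 1) < sym u (K + 1) := fun K => by
      obtain ⟨j, a, b⟩ := h (K + 1)
      obtain ⟨j, rfl⟩ : ∃ i, j = i + 1 := ⟨j - 1, by omega⟩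
      exact ⟨j, lt_of_le_of_ne (h2 (by omega)) b⟩
    obtain ⟨j1, a1⟩ := h3 0
    obtain ⟨j2, a2⟩ := h3 j1
    obtain ⟨j3, a3⟩ := h3 j2
    have := sym_le u (0 + 1)
    omega
  obtain ⟨j, hj⟩ := h1
  by_cases h2 : sym u (j + 1 + 1) < sym u (j + 1 + 2)
  · have := sym_le u (j + 1 + 1 + 2)
    have e : j + 1 + 2 = j + 1 + 1 + 1 := rfl
    rw [e] at h2
    exact ⟨j + 1, h2, by omega⟩
  · exact ⟨j, hj, h2⟩

lemma sym_not_const {F x : ℕ → ℕ} (hx : StrictMono x) (h : ∀ k, ∃ n, x (n + k) < F n) (K : ℕ) :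
    ∃ j, K ≤ j ∧ sym (bb x (spa F)) j ≠ sym (bb x (spa F)) K := by
  by_contra hn
  have hc : ∀ j, K ≤ j → sym (bb x (spa F)) j = sym (bb x (spa F)) K := fun j hj =>
    by_contra fun k => hn ⟨j, hj, k⟩
  have hu : ∀ i j, i < bb x (spa F) j ↔ spa F i < x j := fun i j => lt_cnt (spa_mono F) _ _
  generalize bb x (spa F) = u at hc hu
  by_cases h2 : sym u K = 2
  · obtain ⟨n, hn⟩ := h (spa F (K + 1) + 1)
    have h3 := hx.id_le (n + (spa F (K + 1) + 1))
    rcases le_total n K with hK | hK
    · have := le_spa F (hK.trans ((spa_mono F).id_le K))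
      simp only [id] at h3
      omega
    · have h4 : u n + 2 ≤ u (n + 1) := by
        have := (hc n hK).trans h2
        unfold sym at this
        split_ifs at this <;> omega
      have h5 := (hu (u n + 1) (n + 1)).1 (by omega)
      have h6 : x n ≤ spa F (u n) := not_lt.1 fun k => lt_irrefl _ ((hu _ _).2 k)
      have h7 := le_spa F ((hx.id_le n).trans h6)
      have h8 := hx.monotone (show n + 1 ≤ n + (spa F (K + 1) + 1) by omega)
      simp only [id] at h7
      omega
  · have h3 : ∀ j, K ≤ j → u j = u K := by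
      intro j hj
      induction j, hj using Nat.le_induction with
      | base => rfl
      | succ j hj ih =>
        have a1 := hc j hj
        have a2 := hc (j + 1) (by omega)
        have a3 : u j ≤ u (j + 1) := le_of_forall_lt fun i hi =>
          (hu _ _).2 (((hu _ _).1 hi).trans (hx (Nat.lt_succ_self j)))
        generalize sym u K = s at a1 a2 h2
        unfold sym at a1 a2
        split_ifs at a1 a2 <;> omega
    have h4 := h3 (K + spa F (u K) + 1) (by omega)
    have h5 := hx.id_le (K + spa F (u K) + 1)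
    have h6 := (hu (u K) (K + spa F (u K) + 1)).2 (by simp only [id] at h5; omega)
    omega

theorem marker : ∃ mc : (ℕ → ℕ) × (ℕ → ℕ) → ℕ, Measurable mc ∧ (∀ p, mc p < 3) ∧
    ∀ F x, StrictMono x → (∀ k, ∃ n, x (n + k) < F n) → mc (F, x) ≠ mc (F, sh x) :=
  ⟨fun p => gcol (Asc (bb p.2 (spa p.1))),
    meas_gcol fun k => (meas_asc k).comp (meas_bb measurable_snd (meas_spa.comp measurable_fst)),
    fun _ => gcol_lt _, fun _ _ hx h =>
      gcol_ne (exists_asc (sym_not_const hx h)) fun a b => a.2 b.1⟩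

end Pool.Agent.P.MP_b28ae3_lc
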