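import Mathlib
import Pool.Agent.P.MP_b28ae3_lc.Inf3
import Pool.Agent.P.MP_b28ae3_lc.InfM
import Pool.Agent.P.MP_b28ae3_lc.InfF

/-! The two graphs and the Borel 3-colouring of their product. -/

set_option autoImplicit false

namespace Pool.Agent.P.MP_b28ae3_lc

open Classical Encodable

lemma meas_nat {Y : Type} [MeasurableSpace Y] {f : Y → ℕ}
    (h : ∀ c, Measurable (fun y => f y = c)) : Measurable f :=
  measurable_to_countable' (fun c => measurableSet_setOfPred.2 (h c))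

lemma meas_sInf {Y : Type} [MeasurableSpace Y] {P : Y → ℕ → Prop}
    (h : ∀ c, Measurable (fun y => P y c)) : Measurable (fun y => sInf {c | P y c}) := by
  refine meas_nat (fun c => ?_)
  have e : (fun y => sInf {c | P y c} = c) =
      fun y => (c = 0 ∧ ∀ d, ¬ P y d) ∨ (P y c ∧ ∀ d, d < c → ¬ P y d) := by
    funext y
    refine propext ⟨?_, ?_⟩
    · rintro rfl
      by_cases hy : ∃ d, P y d
      · exact Or.inr ⟨Nat.sInf_mem (s := {c | P y c}) hy,
          fun d hd => Nat.notMem_of_lt_sInf (s := {c | P y c}) hd⟩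
      · refine Or.inl ⟨Nat.sInf_eq_zero.2 (Or.inr ?_), fun d hd => hy ⟨d, hd⟩⟩
        exact Set.eq_empty_of_forall_notMem (fun d hd => hy ⟨d, hd⟩)
    · rintro (⟨rfl, hy⟩ | ⟨h1, h2⟩)
      · exact Nat.sInf_eq_zero.2 (Or.inr (Set.eq_empty_of_forall_notMem hy))
      · refine le_antisymm (Nat.sInf_le h1) (not_lt.1 (fun hlt => h2 _ hlt ?_))
        exact Nat.sInf_mem (s := {c | P y c}) ⟨c, h1⟩
  rw [e]
  exact (measurable_const.and (Measurable.forall (fun d => (h d).not))).or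
    ((h c).and (Measurable.forall (fun d => measurable_const.imp (h d).not)))

lemma meas_Cm {Y : Type} [MeasurableSpace Y] {Q : Y → List ℕ → List ℕ → ℕ → Prop}
    (h : ∀ ν μ c, Measurable (fun y => Q y ν μ c)) (ρ θ ν : List ℕ) :
    ∀ μ, Measurable (fun y => Cm (Q y) ρ θ ν = μ) := by
  induction ν with
  | nil => intro μ; simp only [Cm]; exact measurable_const
  | cons a ν ih =>
    intro μ
    by_cases hν : a :: ν = ρ
    · simp only [Cm, if_pos hν]
      exact measurable_const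
    · have e : (fun y => Cm (Q y) ρ θ (a :: ν) = μ) = fun y => ∃ μ', Cm (Q y) ρ θ ν = μ' ∧
          sInf {c | Q y (a :: ν) μ' c} :: μ' = μ := by
        funext y
        simp only [Cm, if_neg hν]
        exact propext ⟨fun h => ⟨_, rfl, h⟩, fun ⟨_, h1, h2⟩ => by rw [h1]; exact h2⟩
      rw [e]
      exact Measurable.exists (fun μ' => (ih μ').and
        ((measurable_of_countable (fun n : ℕ => n :: μ' = μ)).comp (meas_sInf (h _ _))))

lemma meas_Cf {Y : Type} [MeasurableSpace Y] {Q : Y → List ℕ → List ℕ → ℕ → Prop}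
    (h : ∀ ν μ c, Measurable (fun y => Q y ν μ c)) (ρ θ : List ℕ) :
    Measurable (fun y => Cf (Q y) ρ θ) := by
  refine measurable_pi_lambda _ (fun n => meas_nat (fun c => ?_))
  have e : (fun y => Cf (Q y) ρ θ n = c) =
      fun y => ∃ μ, Cm (Q y) ρ θ (dec n) = μ ∧ μ.headD 0 = c := by
    funext y
    exact propext ⟨fun h => ⟨_, rfl, h⟩, fun ⟨_, h1, h2⟩ => by rw [Cf, h1]; exact h2⟩
  rw [e]
  exact Measurable.exists (fun μ => (meas_Cm h ρ θ _ μ).and measurable_const)

/-- one-step closure of the relation `L` from nodes of `B` to nodes of `A` -/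
def Lp (A B : Tr) (L : List ℕ → List ℕ → Prop) (μ ν : List ℕ) : Prop :=
  ∀ a, B (a :: μ) → ∃ c, A (c :: ν) ∧ L (a :: μ) (c :: ν)

/-- the pair coded by `n` is in the closure of `L` but not in `L` -/
def C1 (A B : Tr) (L : List ℕ → List ℕ → Prop) (n : ℕ) : Prop :=
  Lp A B L (dec n.unpair.1) (dec n.unpair.2) ∧ ¬ L (dec n.unpair.1) (dec n.unpair.2)

/-- the function used in the first case -/
noncomputable def F1 (A B : Tr) (L : List ℕ → List ℕ → Prop) : ℕ → ℕ :=
  Cf (fun μ ν c => A (c :: ν) ∧ L μ (c :: ν)) (dec (sInf {n | C1 A B L n}).unpair.1)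
    (dec (sInf {n | C1 A B L n}).unpair.2)

/-- the function used in the second case -/
noncomputable def F2 (A B : Tr) (L : List ℕ → List ℕ → Prop) : ℕ → ℕ :=
  Cf (fun ν μ c => B (c :: μ) ∧ ∀ a, A (a :: ν) → ¬ L (c :: μ) (a :: ν)) [] [0]

lemma case_one {A B : Tr} {x : ℕ → ℕ} (h : ∃ n, C1 A B (LeX B A x) n) (k : ℕ) :
    ∃ n, x (n + k) < F1 A B (LeX B A x) n := by
  by_contra hn
  push Not at hn
  have h0 := Nat.sInf_mem (s := {n | C1 A B (LeX B A x) n}) h
  exact h0.2 ⟨k, leX_of_cf (Lp A B (LeX B A x)) h0.1 (fun μ ν a hI ha => hI a ha)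
    (fun μ ν c hq => ⟨hq.1, fun a ha => hq.2.step ha⟩) hn⟩

lemma case_two {A B : Tr} {L : List ℕ → List ℕ → Prop} (h : ¬ ∃ n, C1 A B L n)
    (h0 : ¬ L [0] [0]) (hA : ∀ a, A [a] → a = 0) {y : ℕ → ℕ} {k : ℕ}
    (hy : ¬ LeI A B (bk y k) [] [0]) : ∃ n, y (n + k) < F2 A B L n := by
  by_contra hn
  push Not at hn
  refine hy (leX_of_cf (fun ν μ => ∀ a, A (a :: ν) → ¬ L μ (a :: ν)) (fun a ha => ?_)
    (fun ν μ a hI ha => ?_) (fun ν μ c hq => hq) hn)
  · rw [hA a ha]; exact h0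
  · by_contra hc
    refine h ⟨Nat.pair (encode μ) (encode (a :: ν)), ?_⟩
    simp only [C1, Nat.unpair_pair, dec_encode]
    refine ⟨fun c hB => ?_, hI a ha⟩
    by_contra he
    exact hc ⟨c, hB, fun e h1 h2 => he ⟨e, h1, h2⟩⟩

/-- oriented edges -/
def Eg (i : Bool) (z w : ZZ) : Prop := StrictMono z.2 ∧ InB i z.1 z.2 ∧ w.1 = z.1 ∧ w.2 = sh z.2

/-- the shift graph on the fibres of the set `InB i` -/
def GG (i : Bool) : SimpleGraph ZZ where
  Adj z w := Eg i z w ∨ Eg i w z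
  symm := ⟨fun _ _ h => h.symm⟩
  loopless := ⟨fun z h => by
    have h' : Eg i z z := h.elim id id
    have h1 := congrFun h'.2.2.2 0
    exact absurd h1 (h'.1 (Nat.lt_succ_self 0)).ne⟩

lemma meas_Eg (i : Bool) {Y : Type} [MeasurableSpace Y] {f g : Y → ZZ} (hf : Measurable f)
    (hg : Measurable g) : Measurable (fun y => Eg i (f y) (g y)) := by
  refine (meas_strictMono.comp hf.snd).and (((meas_inB i).comp hf).and
    (Measurable.and ?_ (meas_eq hg.snd (meas_sh.comp hf.snd))))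
  exact measurableSet_setOfPred.1 (measurableSet_eq_fun hg.fst hf.fst)

lemma meas_GG (i : Bool) : MeasurableSet {p : ZZ × ZZ | (GG i).Adj p.1 p.2} :=
  measurableSet_setOfPred.2 ((meas_Eg i measurable_fst measurable_snd).or
    (meas_Eg i measurable_snd measurable_fst))

lemma GG_iso (i : Bool) (q : ZZ) : ¬ (GG i).Adj (fun _ => false, fun _ => 0) q := by
  rintro (h | h)
  · exact absurd (h.1 (Nat.lt_succ_self 0)) (lt_irrefl _)
  · have := strictMono_sh h.1
    rw [← h.2.2.2] at this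
    exact absurd (this (Nat.lt_succ_self 0)) (lt_irrefl _)

lemma GG_inf (i : Bool) (m : ℕ) : ¬ BCol (GG i).Adj m := by
  rintro ⟨c, h1, h2, h3⟩
  exact no_finite i m c h1 (fun z => by exact_mod_cast h2 z)
    (fun s x hx hB => h3 _ _ (Or.inl ⟨hx, hB, rfl, rfl⟩))

/-- the relation used to colour the product -/
def LL (p : ZZ × ZZ) : List ℕ → List ℕ → Prop := LeX (RR true p.2.1) (RR false p.1.1) p.1.2

theorem prod_three :
    BCol (fun p q : ZZ × ZZ => (GG false).Adj p.1 q.1 ∧ (GG true).Adj p.2 q.2) 3 := by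
  obtain ⟨mc, m1, m2, m3⟩ := marker
  let A : ZZ × ZZ → Tr := fun p => RR false p.1.1
  let B : ZZ × ZZ → Tr := fun p => RR true p.2.1
  have hA : ∀ ν, Measurable (fun p => A p ν) := fun ν =>
    (lc_Rr ν false).meas.comp measurable_fst.fst
  have hB : ∀ ν, Measurable (fun p => B p ν) := fun ν =>
    (lc_Rr ν true).meas.comp measurable_snd.fst
  have hL : ∀ μ ν, Measurable (fun p => LL p μ ν) := meas_leX hB hA measurable_fst.snd
  have hC : ∀ n, Measurable (fun p => C1 (A p) (B p) (LL p) n) := fun n =>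
    (Measurable.forall (fun a => (hB _).imp (Measurable.exists (fun c =>
      (hA _).and (hL _ _))))).and (hL _ _).not
  have h1 : Measurable (fun p => F1 (A p) (B p) (LL p)) :=
    meas_dep (fun n p => Cf (fun μ ν c => A p (c :: ν) ∧ LL p μ (c :: ν)) (dec n.unpair.1)
      (dec n.unpair.2)) (fun n => meas_Cf (fun _ _ _ => (hA _).and (hL _ _)) _ _) _ (meas_sInf hC)
  have h2 : Measurable (fun p => F2 (A p) (B p) (LL p)) :=
    meas_Cf (fun _ _ _ => (hB _).and (Measurable.forall (fun a => (hA _).imp (hL _ _).not))) _ _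
  refine ⟨fun p => if ∃ n, C1 (A p) (B p) (LL p) n then mc (F1 (A p) (B p) (LL p), p.1.2)
    else mc (F2 (A p) (B p) (LL p), p.2.2), ?_, fun p => ?_, ?_⟩
  · exact Measurable.ite (measurableSet_setOfPred.2 (Measurable.exists hC))
      (m1.comp (h1.prodMk measurable_fst.snd)) (m1.comp (h2.prodMk measurable_snd.snd))
  · dsimp only
    split_ifs <;> exact_mod_cast m2 _
  · have key : ∀ p q : ZZ × ZZ, Eg false p.1 q.1 → (GG true).Adj p.2 q.2 →
        (if ∃ n, C1 (A p) (B p) (LL p) n then mc (F1 (A p) (B p) (LL p), p.1.2)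
          else mc (F2 (A p) (B p) (LL p), p.2.2)) ≠
        (if ∃ n, C1 (A q) (B q) (LL q) n then mc (F1 (A q) (B q) (LL q), q.1.2)
          else mc (F2 (A q) (B q) (LL q), q.2.2)) := by
      rintro ⟨⟨s, x⟩, ⟨t, y⟩⟩ ⟨⟨s', x'⟩, ⟨t', y'⟩⟩ ⟨hx, hxB, e1, e2⟩ h
      dsimp only at hx hxB e1 e2 h
      subst e1 e2
      obtain rfl : t' = t := h.elim (fun h => h.2.2.1) (fun h => h.2.2.1.symm)
      simp only [A, B, LL, leX_sh hx]
      by_cases hc : ∃ n, C1 (RR false s') (RR true t') (LeX (RR true t') (RR false s') x) n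
      · simp only [hc, if_true]
        exact m3 _ _ hx (case_one hc)
      · simp only [hc, if_false]
        have g0 : ¬ LeX (RR true t') (RR false s') x [0] [0] := by
          rintro ⟨k, hk⟩
          obtain ⟨n, hn⟩ := hxB k
          exact hn t' (hk n)
        have g1 : ∀ y, InB true t' y → ∀ k, ∃ n, y (n + k) <
            F2 (RR false s') (RR true t') (LeX (RR true t') (RR false s') x) n := by
          intro y hy k
          refine case_two hc g0 (fun a ha => (RR_root _ _ a).1 ha) (fun hk => ?_)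
          obtain ⟨n, hn⟩ := hy k
          exact hn s' (hk n)
        rcases h with ⟨hy, hyB, -, e⟩ | ⟨hy, hyB, -, e⟩
        · dsimp only at hy hyB e
          subst e
          exact m3 _ _ hy (g1 _ hyB)
        · dsimp only at hy hyB e
          subst e
          exact (m3 _ _ hy (g1 _ hyB)).symm
    rintro p q ⟨h | h, h'⟩
    · exact key p q h h'
    · exact (key q p h h'.symm).symm

theorem all_triples (n : ℕ) (hn : 3 ≤ n) (a b : ℕ∞) (ha : (n : ℕ∞) ≤ a) (hb : (n : ℕ∞) ≤ b) :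
    ∃ H H' : SimpleGraph (ZZ × ℕ),
      MeasurableSet {z : (ZZ × ℕ) × (ZZ × ℕ) | H.Adj z.1 z.2} ∧
      MeasurableSet {z : (ZZ × ℕ) × (ZZ × ℕ) | H'.Adj z.1 z.2} ∧
      (∀ m, BCol H.Adj m ↔ a ≤ m) ∧ (∀ m, BCol H'.Adj m ↔ b ≤ m) ∧
      ∀ m, BCol (fun p q : (ZZ × ℕ) × (ZZ × ℕ) => H.Adj p.1 q.1 ∧ H'.Adj p.2 q.2) m ↔
        (n : ℕ∞) ≤ m :=
  final (GG false) (GG true) (meas_GG false) (meas_GG true) _ (GG_iso false) (GG_iso true)
    (GG_inf false) (GG_inf true) prod_three n hn a b ha hb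

end Pool.Agent.P.MP_b28ae3_lc
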